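import Mathlib

set_option autoImplicit false

open MvPolynomial

namespace Pool.Agent.Helper52

section dim

variable (K : Type*) [Field K] (n : ℕ)

instance finite_homogeneousSubmodule (t : ℕ) :
    Module.Finite K (homogeneousSubmodule (Fin n) K t) :=
  Module.Finite.iff_fg.mpr (homogeneousSubmodule_fg (Fin n) K t)

lemma finrank_homog (t : ℕ) :
    Module.finrank K (homogeneousSubmodule (Fin n) K t) = (n + t - 1).choose t := by
  classical
  have hdeg : ∀ d : Fin n →₀ ℕ, d.degree = Finset.univ.sum d := by
    intro d
    exact Finset.sum_subset (Finset.subset_univ _)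
      (fun x _ hx => Finsupp.notMem_support_iff.mp hx)
  have h1 : homogeneousSubmodule (Fin n) K t =
      Submodule.span K (Set.range (fun d : (Finset.univ : Finset (Fin n)).finsuppAntidiag t =>
        (monomial (d : Fin n →₀ ℕ) (1 : K)))) := by
    apply le_antisymm
    · intro p hp
      rw [mem_homogeneousSubmodule] at hp
      rw [p.as_sum]
      refine Submodule.sum_mem _ fun d hd => ?_
      have hd' : d ∈ (Finset.univ : Finset (Fin n)).finsuppAntidiag t := by
        rw [Finset.mem_finsuppAntidiag]
        refine ⟨?_, Finset.subset_univ _⟩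
        have := hp.degree_eq_sum_deg_support hd
        rw [this, ← hdeg]
        rfl
      have : monomial d (coeff d p) = coeff d p • monomial d (1 : K) := by
        rw [smul_monomial, smul_eq_mul, mul_one]
      rw [this]
      exact Submodule.smul_mem _ _ (Submodule.subset_span ⟨⟨d, hd'⟩, rfl⟩)
    · rw [Submodule.span_le]
      rintro _ ⟨⟨d, hd⟩, rfl⟩
      rw [Finset.mem_finsuppAntidiag] at hd
      apply isHomogeneous_monomial
      exact (hdeg d).trans hd.1
  rw [h1, finrank_span_eq_card]
  · rw [Fintype.card_coe, Finset.card_finsuppAntidiag_nat_eq_choose, Finset.card_univ,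
      Fintype.card_fin]
  · have h2 := (basisMonomials (Fin n) K).linearIndependent
    have h3 := h2.comp (fun d : (Finset.univ : Finset (Fin n)).finsuppAntidiag t =>
      (d : Fin n →₀ ℕ)) Subtype.val_injective
    have h4 : (⇑(basisMonomials (Fin n) K) ∘
      fun d : (Finset.univ : Finset (Fin n)).finsuppAntidiag t => (d : Fin n →₀ ℕ)) =
      (fun d : (Finset.univ : Finset (Fin n)).finsuppAntidiag t =>
        (monomial (d : Fin n →₀ ℕ) (1 : K))) := by
      funext d; simp
    rw [h4] at h3
    exact h3

lemma finrank_homog3 (t : ℕ) :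
    Module.finrank K (homogeneousSubmodule (Fin 3) K t) = (t + 2).choose 2 := by
  rw [finrank_homog]
  have : 3 + t - 1 = t + 2 := by omega
  rw [this, Nat.choose_symm_add]

lemma finrank_homog4 (t : ℕ) :
    Module.finrank K (homogeneousSubmodule (Fin 4) K t) = (t + 3).choose 3 := by
  rw [finrank_homog]
  have : 4 + t - 1 = t + 3 := by omega
  rw [this, Nat.choose_symm_add]

end dim

section homog

variable {K : Type*} [Field K] {σ : Type*}

lemma comp_mul_homog (c s : MvPolynomial σ K) {m : ℕ} (hs : s.IsHomogeneous m) (k : ℕ) :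
    homogeneousComponent (k + m) (c * s) = homogeneousComponent k c * s := by
  classical
  rw [← sum_homogeneousComponent c, Finset.sum_mul, map_sum, map_sum, Finset.sum_mul]
  refine Finset.sum_congr rfl fun i _ => ?_
  have h1 : (homogeneousComponent i c * s).IsHomogeneous (i + m) :=
    (homogeneousComponent_isHomogeneous i c).mul hs
  rw [homogeneousComponent_of_mem (n := i + m) (m := k + m) h1,
    homogeneousComponent_of_mem (n := i) (m := k) (homogeneousComponent_isHomogeneous i c)]
  by_cases h : k = i
  · subst h; simp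
  · rw [if_neg (by omega), if_neg h, zero_mul]

lemma comp_mul_homog_lt (c s : MvPolynomial σ K) {m : ℕ} (hs : s.IsHomogeneous m) (k : ℕ)
    (hk : k < m) : homogeneousComponent k (c * s) = 0 := by
  classical
  rw [← sum_homogeneousComponent c, Finset.sum_mul, map_sum]
  refine Finset.sum_eq_zero fun i _ => ?_
  have h1 : (homogeneousComponent i c * s).IsHomogeneous (i + m) :=
    (homogeneousComponent_isHomogeneous i c).mul hs
  rw [homogeneousComponent_of_mem (n := i + m) (m := k) h1, if_neg (by omega)]

/-- forms of degree `t - a`, and zero if `t < a`. -/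
noncomputable def piece (K : Type*) [Field K] (σ : Type*) (t a : ℕ) :
    Submodule K (MvPolynomial σ K) :=
  if a ≤ t then homogeneousSubmodule σ K (t - a) else ⊥

lemma piece_mul {t a : ℕ} {f α : MvPolynomial σ K} (hf : f.IsHomogeneous a)
    (hα : α ∈ piece K σ t a) : (α * f).IsHomogeneous t := by
  unfold piece at hα
  split_ifs at hα with h
  · have := (show α.IsHomogeneous (t - a) from hα).mul hf
    rwa [Nat.sub_add_cancel h] at this
  · rw [Submodule.mem_bot] at hα
    subst hα
    rw [zero_mul]; exact isHomogeneous_zero _ _ _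

/-- the component of degree `t - a`. -/
lemma exists_piece {t a : ℕ} {f : MvPolynomial σ K} (hf : f.IsHomogeneous a)
    (α : MvPolynomial σ K) :
    ∃ α' ∈ piece K σ t a, homogeneousComponent t (α * f) = α' * f := by
  unfold piece
  split_ifs with h
  · refine ⟨homogeneousComponent (t - a) α, homogeneousComponent_isHomogeneous _ _, ?_⟩
    have := comp_mul_homog α f hf (t - a)
    rwa [Nat.sub_add_cancel h] at this
  · exact ⟨0, Submodule.zero_mem _, by rw [comp_mul_homog_lt α f hf t (by omega), zero_mul]⟩

lemma mem_span_pair_homog {t a b : ℕ} {f g q : MvPolynomial σ K} (hf : f.IsHomogeneous a)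
    (hg : g.IsHomogeneous b) (hq : q.IsHomogeneous t) (h : q ∈ Ideal.span {f, g}) :
    ∃ α ∈ piece K σ t a, ∃ β ∈ piece K σ t b, α * f + β * g = q := by
  rw [Ideal.mem_span_pair] at h
  obtain ⟨α, β, h⟩ := h
  obtain ⟨α', hα', h1⟩ := exists_piece (t := t) hf α
  obtain ⟨β', hβ', h2⟩ := exists_piece (t := t) hg β
  refine ⟨α', hα', β', hβ', ?_⟩
  rw [← h1, ← h2, ← map_add, h, homogeneousComponent_eq_self hq]

/-- a cofactor of a homogeneous multiple is homogeneous -/
lemma piece_of_mul {t a : ℕ} {f α : MvPolynomial σ K} (hf : f.IsHomogeneous a) (hf0 : f ≠ 0)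
    (h : (α * f).IsHomogeneous t) : α ∈ piece K σ t a := by
  obtain ⟨α', hα', h1⟩ := exists_piece (t := t) hf α
  rw [homogeneousComponent_eq_self h] at h1
  have := mul_right_cancel₀ hf0 h1
  rwa [this]

instance finite_piece (n t a : ℕ) : Module.Finite K (piece K (Fin n) t a) := by
  by_cases h : a ≤ t
  · rw [piece, if_pos h]; infer_instance
  · rw [piece, if_neg h]; infer_instance

lemma finrank_piece3 (t a : ℕ) : Module.finrank K (piece K (Fin 3) t a) = (t + 2 - a).choose 2 := by
  by_cases h : a ≤ t
  · rw [piece, if_pos h, finrank_homog3]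
    congr 1
    omega
  · rw [piece, if_neg h, finrank_bot, Nat.choose_eq_zero_of_lt (by omega)]

end homog

section eval

variable {K : Type*} [Field K] {n : ℕ} {ι : Type*}

/-- evaluation at a family of vectors -/
noncomputable def evL (z : ι → Fin n → K) : MvPolynomial (Fin n) K →ₗ[K] (ι → K) :=
  LinearMap.pi (fun i => (aeval (z i)).toLinearMap)

@[simp] lemma evL_apply (z : ι → Fin n → K) (F : MvPolynomial (Fin n) K) (i : ι) :
    evL z F i = eval (z i) F := by
  simp [evL, aeval_eq_eval]

/-- the space of functions on the points cut out by forms of degree `t` -/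
noncomputable def im (z : ι → Fin n → K) (t : ℕ) : Submodule K (ι → K) :=
  (homogeneousSubmodule (Fin n) K t).map (evL z)

/-- forms of degree `t` vanishing at the points -/
noncomputable def van (z : ι → Fin n → K) (t : ℕ) : Submodule K (MvPolynomial (Fin n) K) :=
  homogeneousSubmodule (Fin n) K t ⊓ LinearMap.ker (evL z)

lemma mem_van {z : ι → Fin n → K} {t : ℕ} {F : MvPolynomial (Fin n) K} :
    F ∈ van z t ↔ F.IsHomogeneous t ∧ ∀ i, eval (z i) F = 0 := by
  rw [van, Submodule.mem_inf, LinearMap.mem_ker, mem_homogeneousSubmodule, funext_iff]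
  simp

lemma mem_im {z : ι → Fin n → K} {t : ℕ} {φ : ι → K} :
    φ ∈ im z t ↔ ∃ F : MvPolynomial (Fin n) K, F.IsHomogeneous t ∧ ∀ i, eval (z i) F = φ i := by
  rw [im, Submodule.mem_map]
  constructor
  · rintro ⟨F, hF, rfl⟩
    exact ⟨F, hF, fun i => by simp⟩
  · rintro ⟨F, hF, h⟩
    exact ⟨F, hF, by funext i; simp [h i]⟩

lemma finrank_im_add_van [Finite ι] (z : ι → Fin n → K) (t : ℕ) :
    Module.finrank K (im z t) + Module.finrank K (van z t) =
      Module.finrank K (homogeneousSubmodule (Fin n) K t) := by
  have h := LinearMap.finrank_range_add_finrank_ker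
    ((evL z).domRestrict (homogeneousSubmodule (Fin n) K t))
  rw [LinearMap.range_domRestrict] at h
  rw [← h, im]
  congr 1
  have h2 : van z t = (LinearMap.ker ((evL z).domRestrict (homogeneousSubmodule (Fin n) K t))).map
      (homogeneousSubmodule (Fin n) K t).subtype := by
    rw [LinearMap.ker_domRestrict, Submodule.map_comap_subtype]
    rfl
  rw [h2, Submodule.finrank_map_subtype_eq]

end eval

end Pool.Agent.Helper52
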