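import Pool.Agent.Helper28.JM.BDefs

/-!
# Symmetries of the regions (MP_c39200_al, module JM-SYM)
-/

set_option autoImplicit false

namespace Pool.Agent.Helper52.JMSym

open Pool.Agent.Helper28.JM

theorem mem_swS (Λ : Set Pt) (x : Pt) : x ∈ swS Λ ↔ (x.2, x.1) ∈ Λ := Iff.rfl

theorem mem_ngS (Λ : Set Pt) (x : Pt) : x ∈ ngS Λ ↔ (-x.1, -x.2) ∈ Λ := Iff.rfl

theorem swS_swS (Λ : Set Pt) : swS (swS Λ) = Λ := rfl

theorem ngS_ngS (Λ : Set Pt) : ngS (ngS Λ) = Λ := by
  ext x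
  simp [ngS]

theorem swW_swW (W : Pt → ℝ) : swW (swW W) = W := rfl

theorem ngW_ngW (W : Pt → ℝ) : ngW (ngW W) = W := by
  funext x
  simp [ngW]

theorem reg_sw {Λ : Set Pt} {bot top : Pt} (h : Reg Λ bot top) :
    Reg (swS Λ) (bot.2, bot.1) (top.2, top.1) where
  fin := by
    have : swS Λ = Prod.swap ⁻¹' Λ := rfl
    rw [this]
    exact h.fin.preimage Prod.swap_injective.injOn
  bot_mem := h.bot_mem
  top_mem := h.top_mem
  bot_le x hx := by
    have := h.bot_le _ hx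
    exact ⟨this.2, this.1⟩
  le_top x hx := by
    have := h.le_top _ hx
    exact ⟨this.2, this.1⟩
  rect i i' j j' s t h1 h2 h3 h4 h5 h6 := h.rect j j' i i' t s h2 h1 h5 h6 h3 h4
  down x hx hne := (h.down _ hx (by
    intro e
    apply hne
    rw [← e])).symm
  up x hx hne := (h.up _ hx (by
    intro e
    apply hne
    rw [← e])).symm
  simple x hx h1 h2 := (h.simple _ hx (by
    intro e
    apply h1
    rw [← e]) (by
    intro e
    apply h2
    rw [← e])).symm

theorem reg_ng {Λ : Set Pt} {bot top : Pt} (h : Reg Λ bot top) :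
    Reg (ngS Λ) (-top.1, -top.2) (-bot.1, -bot.2) where
  fin := by
    have : ngS Λ = (fun x : Pt => (-x.1, -x.2)) ⁻¹' Λ := rfl
    rw [this]
    refine h.fin.preimage (Function.Injective.injOn ?_)
    rintro ⟨a, b⟩ ⟨c, d⟩ e
    simpa using e
  bot_mem := by
    rw [mem_ngS]
    simpa using h.top_mem
  top_mem := by
    rw [mem_ngS]
    simpa using h.bot_mem
  bot_le x hx := by
    have := h.le_top _ hx
    have h1 : -x.1 ≤ top.1 := this.1
    have h2 : -x.2 ≤ top.2 := this.2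
    exact ⟨by show -top.1 ≤ x.1; omega, by show -top.2 ≤ x.2; omega⟩
  le_top x hx := by
    have := h.bot_le _ hx
    have h1 : bot.1 ≤ -x.1 := this.1
    have h2 : bot.2 ≤ -x.2 := this.2
    exact ⟨by show x.1 ≤ -bot.1; omega, by show x.2 ≤ -bot.2; omega⟩
  rect i i' j j' s t h1 h2 h3 h4 h5 h6 :=
    h.rect (-i') (-i) (-j') (-j) (-s) (-t) h2 h1 (by omega) (by omega) (by omega) (by omega)
  down x hx hne := by
    have := h.up _ hx (by
      intro e
      apply hne
      rw [← e]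
      simp)
    rw [mem_ngS, mem_ngS]
    have e1 : -(x.1 - 1) = -x.1 + 1 := by ring
    have e2 : -(x.2 - 1) = -x.2 + 1 := by ring
    simpa only [e1, e2] using this
  up x hx hne := by
    have := h.down _ hx (by
      intro e
      apply hne
      rw [← e]
      simp)
    rw [mem_ngS, mem_ngS]
    have e1 : -(x.1 + 1) = -x.1 - 1 := by ring
    have e2 : -(x.2 + 1) = -x.2 - 1 := by ring
    simpa only [e1, e2] using this
  simple x hx h1 h2 := by
    have := h.simple _ hx (by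
      intro e
      apply h2
      rw [← e]
      simp) (by
      intro e
      apply h1
      rw [← e]
      simp)
    rw [mem_ngS, mem_ngS]
    have e1 : -(x.1 + 1) = -x.1 - 1 := by ring
    have e2 : -(x.2 + 1) = -x.2 - 1 := by ring
    have e3 : -(x.1 - 1) = -x.1 + 1 := by ring
    have e4 : -(x.2 - 1) = -x.2 + 1 := by ring
    simpa only [e1, e2, e3, e4] using this.symm

/-- Transposed rectangle. -/
def swR (R : Pt × Pt) : Pt × Pt := ((R.1.2, R.1.1), (R.2.2, R.2.1))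

/-- Reflected rectangle. -/
def ngR (R : Pt × Pt) : Pt × Pt := ((-R.2.1, -R.2.2), (-R.1.1, -R.1.2))

theorem swR_swR (R : Pt × Pt) : swR (swR R) = R := rfl

theorem ngR_ngR (R : Pt × Pt) : ngR (ngR R) = R := by
  simp [ngR]

theorem mem_Mn_sw {Λ : Set Pt} {R : Pt × Pt} : swR R ∈ Mn (swS Λ) ↔ R ∈ Mn Λ := by
  constructor
  · rintro ⟨h1, h2, h3, h4⟩
    exact ⟨h2, h1, h4, h3⟩
  · rintro ⟨h1, h2, h3, h4⟩
    exact ⟨h2, h1, h4, h3⟩

theorem mem_Mn_ng {Λ : Set Pt} {R : Pt × Pt} : ngR R ∈ Mn (ngS Λ) ↔ R ∈ Mn Λ := by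
  constructor
  · rintro ⟨h1, h2, h3, h4⟩
    have h1' : -R.2.1 < -R.1.1 := h1
    have h2' : -R.2.2 < -R.1.2 := h2
    rw [mem_ngS] at h3 h4
    simp only [ngR, neg_neg] at h3 h4
    exact ⟨by omega, by omega, h4, h3⟩
  · rintro ⟨h1, h2, h3, h4⟩
    refine ⟨?_, ?_, ?_, ?_⟩
    · show -R.2.1 < -R.1.1
      omega
    · show -R.2.2 < -R.1.2
      omega
    · rw [mem_ngS]
      simpa only [ngR, neg_neg] using h4
    · rw [mem_ngS]
      simpa only [ngR, neg_neg] using h3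

theorem mem_Mn_sw' {Λ : Set Pt} {R : Pt × Pt} : swR R ∈ Mn Λ ↔ R ∈ Mn (swS Λ) :=
  mem_Mn_sw (Λ := swS Λ)

theorem mem_Mn_ng' {Λ : Set Pt} {R : Pt × Pt} : ngR R ∈ Mn Λ ↔ R ∈ Mn (ngS Λ) := by
  have := mem_Mn_ng (Λ := ngS Λ) (R := R)
  rwa [ngS_ngS] at this

theorem isD_sw (W : Pt → ℝ) (R : Pt × Pt) : IsD (swW W) (swR R) ↔ IsD W R := by
  have h1 : IsD (swW W) (swR R) ↔
      W (R.2.1, R.1.2) + W (R.1.1, R.2.2) < W R.1 + W R.2 := Iff.rfl
  rw [h1, add_comm]
  exact Iff.rfl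

theorem isD_ng (W : Pt → ℝ) (R : Pt × Pt) : IsD (ngW W) (ngR R) ↔ IsD W R := by
  simp only [IsD, ngW, ngR, neg_neg]
  rw [add_comm (W (R.2.1, R.1.2)), add_comm (W (R.2.1, R.2.2))]

theorem ld_sw (W : Pt → ℝ) (R : Pt × Pt) : ld (swW W) (swR R) = (ld W R).map Prod.swap := by
  by_cases h : IsD W R
  · rw [ld, ld, if_pos ((isD_sw W R).2 h), if_pos h]
    rfl
  · rw [ld, ld, if_neg (fun h' => h ((isD_sw W R).1 h')), if_neg h]
    rw [Multiset.pair_comm]
    rfl

theorem ld_ng (W : Pt → ℝ) (R : Pt × Pt) :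
    ld (ngW W) (ngR R) = (ld W R).map (fun x => (-x.1, -x.2)) := by
  by_cases h : IsD W R
  · rw [ld, ld, if_pos ((isD_ng W R).2 h), if_pos h]
    rw [Multiset.pair_comm]
    rfl
  · rw [ld, ld, if_neg (fun h' => h ((isD_ng W R).1 h')), if_neg h]
    rw [Multiset.pair_comm]
    rfl

theorem crV_sw (R R' : Pt × Pt) : CrV (swR R) (swR R') ↔ CrH R R' := Iff.rfl

theorem crH_sw (R R' : Pt × Pt) : CrH (swR R) (swR R') ↔ CrV R R' := Iff.rfl

theorem crV_ng (R R' : Pt × Pt) : CrV (ngR R) (ngR R') ↔ CrV R' R := by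
  simp only [CrV, ngR]
  constructor
  · rintro ⟨h1, h2, h3, h4, h5, h6⟩
    exact ⟨by omega, by omega, by omega, by omega, by omega, by omega⟩
  · rintro ⟨h1, h2, h3, h4, h5, h6⟩
    exact ⟨by omega, by omega, by omega, by omega, by omega, by omega⟩

theorem crH_ng (R R' : Pt × Pt) : CrH (ngR R) (ngR R') ↔ CrH R' R := by
  simp only [CrH, ngR]
  constructor
  · rintro ⟨h1, h2, h3, h4, h5, h6⟩
    exact ⟨by omega, by omega, by omega, by omega, by omega, by omega⟩
  · rintro ⟨h1, h2, h3, h4, h5, h6⟩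
    exact ⟨by omega, by omega, by omega, by omega, by omega, by omega⟩

theorem std_sw {E : Multiset (Pt × Pt)} (h : Std E) : Std (E.map swR) := by
  intro R hR R' hR'
  rw [Multiset.mem_map] at hR hR'
  obtain ⟨S, hS, rfl⟩ := hR
  obtain ⟨S', hS', rfl⟩ := hR'
  have := h S hS S' hS'
  exact ⟨fun h' => this.2 ((crV_sw S S').1 h'), fun h' => this.1 ((crH_sw S S').1 h')⟩

theorem std_ng {E : Multiset (Pt × Pt)} (h : Std E) : Std (E.map ngR) := by
  intro R hR R' hR'
  rw [Multiset.mem_map] at hR hR'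
  obtain ⟨S, hS, rfl⟩ := hR
  obtain ⟨S', hS', rfl⟩ := hR'
  have := h S' hS' S hS
  exact ⟨fun h' => this.1 ((crV_ng S S').1 h'), fun h' => this.2 ((crH_ng S S').1 h')⟩

theorem nu_sw (W : Pt → ℝ) (E : Multiset (Pt × Pt)) :
    nu (swW W) (E.map swR) = (nu W E).map Prod.swap := by
  have h := map_multiset_sum (Multiset.mapAddMonoidHom (Prod.swap : Pt → Pt)) (E.map (ld W))
  have h' : (nu W E).map Prod.swap = ((E.map (ld W)).map (Multiset.map Prod.swap)).sum := h
  rw [h', nu, Multiset.map_map, Multiset.map_map]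
  congr 1
  refine Multiset.map_congr rfl fun R _ => ?_
  exact ld_sw W R

theorem nu_ng (W : Pt → ℝ) (E : Multiset (Pt × Pt)) :
    nu (ngW W) (E.map ngR) = (nu W E).map (fun x => (-x.1, -x.2)) := by
  have h := map_multiset_sum (Multiset.mapAddMonoidHom (fun x : Pt => ((-x.1, -x.2) : Pt)))
    (E.map (ld W))
  have h' : (nu W E).map (fun x => (-x.1, -x.2)) =
      ((E.map (ld W)).map (Multiset.map (fun x => (-x.1, -x.2)))).sum := h
  rw [h', nu, Multiset.map_map, Multiset.map_map]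
  congr 1
  refine Multiset.map_congr rfl fun R _ => ?_
  exact ld_ng W R

theorem tot_sw {Λ : Set Pt} {W : Pt → ℝ} (h : Tot Λ W) : Tot (swS Λ) (swW W) where
  gen R hR := by
    have h1 := h.gen (swR R) (mem_Mn_sw'.2 hR)
    intro e
    apply h1
    have e' : W (R.2.2, R.1.1) + W (R.1.2, R.2.1) = W (swR R).1 + W (swR R).2 := e
    have e'' : W ((swR R).1.1, (swR R).2.2) = W (R.1.2, R.2.1) := rfl
    have e3 : W ((swR R).2.1, (swR R).1.2) = W (R.2.2, R.1.1) := rfl
    rw [e'', e3, add_comm, e']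
  uniq E E' hE hE' hS hS' hnu := by
    have hinj : Function.Injective swR := Function.LeftInverse.injective swR_swR
    apply Multiset.map_injective hinj
    refine h.uniq _ _ ?_ ?_ (std_sw hS) (std_sw hS') ?_
    · intro R hR
      rw [Multiset.mem_map] at hR
      obtain ⟨S, hS, rfl⟩ := hR
      exact mem_Mn_sw'.2 (hE S hS)
    · intro R hR
      rw [Multiset.mem_map] at hR
      obtain ⟨S, hS, rfl⟩ := hR
      exact mem_Mn_sw'.2 (hE' S hS)
    · have h1 := nu_sw (swW W) E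
      have h2 := nu_sw (swW W) E'
      rw [swW_swW] at h1 h2
      rw [h1, h2, hnu]

theorem tot_ng {Λ : Set Pt} {W : Pt → ℝ} (h : Tot Λ W) : Tot (ngS Λ) (ngW W) where
  gen R hR := by
    have h1 := h.gen (ngR R) (mem_Mn_ng'.2 hR)
    intro e
    apply h1
    have e1 : ngW W (R.1.1, R.2.2) = W ((ngR R).2.1, (ngR R).1.2) := rfl
    have e2 : ngW W (R.2.1, R.1.2) = W ((ngR R).1.1, (ngR R).2.2) := rfl
    have e3 : ngW W R.1 = W (ngR R).2 := rfl
    have e4 : ngW W R.2 = W (ngR R).1 := rfl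
    rw [e1, e2, e3, e4] at e
    rw [add_comm, e, add_comm]
  uniq E E' hE hE' hS hS' hnu := by
    have hinj : Function.Injective ngR := Function.LeftInverse.injective ngR_ngR
    apply Multiset.map_injective hinj
    refine h.uniq _ _ ?_ ?_ (std_ng hS) (std_ng hS') ?_
    · intro R hR
      rw [Multiset.mem_map] at hR
      obtain ⟨S, hS, rfl⟩ := hR
      exact mem_Mn_ng'.2 (hE S hS)
    · intro R hR
      rw [Multiset.mem_map] at hR
      obtain ⟨S, hS, rfl⟩ := hR
      exact mem_Mn_ng'.2 (hE' S hS)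
    · have h1 := nu_ng (ngW W) E
      have h2 := nu_ng (ngW W) E'
      rw [ngW_ngW] at h1 h2
      rw [h1, h2, hnu]

end Pool.Agent.Helper52.JMSym
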