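import Pool.Agent.Helper52.Cone

/-!
# Existence of three collinear points
-/

set_option autoImplicit false

open MvPolynomial

namespace Pool.Agent.Helper52

variable {K : Type*} [Field K] {ι : Type*}

lemma li3 {V : Type*} [AddCommGroup V] [Module K V] {u v w : V} :
    LinearIndependent K ![u, v, w] ↔
      ∀ a b c : K, a • u + b • v + c • w = 0 → a = 0 ∧ b = 0 ∧ c = 0 := by
  rw [Fintype.linearIndependent_iff]
  constructor
  · intro h a b c habc
    have := h ![a, b, c] (by simpa [Fin.sum_univ_three] using habc)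
    exact ⟨this 0, this 1, this 2⟩
  · intro h g hg i
    have := h (g 0) (g 1) (g 2) (by simpa [Fin.sum_univ_three] using hg)
    fin_cases i
    · exact this.1
    · exact this.2.1
    · exact this.2.2

lemma notMem_span_of {V : Type*} [AddCommGroup V] [Module K V] {W : Submodule K V} {w u p q : V}
    (hw : w ∉ W) (hp : p ∈ W) (hq : q ∈ W) (hu : u ∈ W) (h : LinearIndependent K ![p, q, u]) :
    u ∉ Submodule.span K {w, p, q} := by
  intro hmem
  rw [Submodule.mem_span_triple] at hmem
  obtain ⟨a, b, c, e⟩ := hmem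
  have ha : a = 0 := by
    by_contra ha
    apply hw
    have : w = a⁻¹ • (u - b • p - c • q) := by
      rw [← e]
      have : a • w + b • p + c • q - b • p - c • q = a • w := by abel
      rw [this, smul_smul, inv_mul_cancel₀ ha, one_smul]
    rw [this]
    exact W.smul_mem _ (W.sub_mem (W.sub_mem hu (W.smul_mem _ hp)) (W.smul_mem _ hq))
  subst ha
  rw [li3] at h
  have := h b c (-1) (by rw [← e, zero_smul, zero_add, neg_one_smul, add_neg_cancel])
  exact one_ne_zero (neg_eq_zero.mp this.2.2)

/-- If every vertex carries a quadric cone through at least six nondegenerate points, three of the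
points are collinear. -/
theorem exists_collinear [Fintype ι] (h2 : (2 : K) ≠ 0) {z : ι → Fin 4 → K}
    (hcard : 6 ≤ Fintype.card ι) (hc : ∀ p, HasCone z p)
    (hnd : ∀ φ : (Fin 4 → K) →ₗ[K] K, (∀ i, φ (z i) = 0) → φ = 0) :
    ∃ i j k : ι, i ≠ j ∧ i ≠ k ∧ j ≠ k ∧ ¬ LinearIndependent K ![z i, z j, z k] := by
  classical
  by_contra hcon
  have hall : ∀ i j k : ι, i ≠ j → i ≠ k → j ≠ k → LinearIndependent K ![z i, z j, z k] := by
    intro i j k h1 h2 h3
    by_contra h
    exact hcon ⟨i, j, k, h1, h2, h3, h⟩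
  obtain ⟨e⟩ : Nonempty (Fin 6 ↪ ι) :=
    Function.Embedding.nonempty_of_card_le (by rwa [Fintype.card_fin])
  have he : ∀ a b : Fin 6, a ≠ b → e a ≠ e b := fun a b h h' => h (e.injective h')
  set i1 := e 0 with hi1
  set i2 := e 1 with hi2
  set i3 := e 2 with hi3
  have h12 : i1 ≠ i2 := he 0 1 (by decide)
  have h13 : i1 ≠ i3 := he 0 2 (by decide)
  have h23 : i2 ≠ i3 := he 1 2 (by decide)
  set W := Submodule.span K {z i1, z i2, z i3} with hW
  have hW1 : z i1 ∈ W := Submodule.subset_span (by simp)
  have hW2 : z i2 ∈ W := Submodule.subset_span (by simp)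
  have hW3 : z i3 ∈ W := Submodule.subset_span (by simp)
  -- a point outside
  obtain ⟨w, hw⟩ : ∃ w, z w ∉ W := by
    by_contra hno
    push Not at hno
    have hlt : W < ⊤ := by
      rw [lt_top_iff_ne_top]
      intro htop
      have h1 : Module.finrank K W ≤ 3 := by
        have := finrank_span_finset_le_card (R := K) ({z i1, z i2, z i3} : Finset (Fin 4 → K))
        rw [Finset.coe_insert, Finset.coe_insert, Finset.coe_singleton] at this
        exact this.trans Finset.card_le_three
      rw [htop, finrank_top, Module.finrank_fin_fun] at h1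
      omega
    obtain ⟨φ, hφ0, hφ⟩ := Submodule.exists_le_ker_of_lt_top _ hlt
    exact hφ0 (hnd φ fun i => hφ (hno i))
  -- a fourth point in the plane
  obtain ⟨i4, h14, h24, h34, hW4⟩ : ∃ i4, i1 ≠ i4 ∧ i2 ≠ i4 ∧ i3 ≠ i4 ∧ z i4 ∈ W := by
    by_contra hno
    push Not at hno
    have a1 := hno (e 3) (he 0 3 (by decide)) (he 1 3 (by decide)) (he 2 3 (by decide))
    have a2 := hno (e 4) (he 0 4 (by decide)) (he 1 4 (by decide)) (he 2 4 (by decide))
    have a3 := hno (e 5) (he 0 5 (by decide)) (he 1 5 (by decide)) (he 2 5 (by decide))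
    exact outside_dependent h2 hc (hall _ _ _ h12 h13 h23) a1 a2 a3
      (hall _ _ _ (he 3 4 (by decide)) (he 3 5 (by decide)) (he 4 5 (by decide)))
  have hwne : ∀ i, z i ∈ W → w ≠ i := by
    rintro i hi rfl
    exact hw hi
  -- a sixth point
  obtain ⟨x, hx⟩ : ∃ x, x ∉ ({i1, i2, i3, i4, w} : Finset ι) := by
    by_contra hno
    push Not at hno
    have : (Finset.univ : Finset ι) ⊆ {i1, i2, i3, i4, w} := fun x _ => hno x
    have h1 := Finset.card_le_card this
    have h2 : ({i1, i2, i3, i4, w} : Finset ι).card ≤ 5 := Finset.card_le_five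
    rw [Finset.card_univ] at h1
    omega
  simp only [Finset.mem_insert, Finset.mem_singleton, not_or] at hx
  obtain ⟨hx1, hx2, hx3, hx4, hxw⟩ := hx
  have m2 : z x ∈ Submodule.span K {z w, z i1, z i2} := by
    by_contra hxo
    have b1 := notMem_span_of hw hW1 hW2 hW3 (hall _ _ _ h12 h13 h23)
    have b2 := notMem_span_of hw hW1 hW2 hW4 (hall _ _ _ h12 h14 h24)
    exact outside_dependent h2 hc (hall w i1 i2 (hwne _ hW1) (hwne _ hW2) h12) b1 b2 hxo
      (hall _ _ _ h34 (Ne.symm hx3) (Ne.symm hx4))
  have m3 : z x ∈ Submodule.span K {z w, z i1, z i3} := by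
    by_contra hxo
    have b1 := notMem_span_of hw hW1 hW3 hW2 (hall _ _ _ h13 h12 (Ne.symm h23))
    have b2 := notMem_span_of hw hW1 hW3 hW4 (hall _ _ _ h13 h14 h34)
    exact outside_dependent h2 hc (hall w i1 i3 (hwne _ hW1) (hwne _ hW3) h13) b1 b2 hxo
      (hall _ _ _ h24 (Ne.symm hx2) (Ne.symm hx4))
  rw [Submodule.mem_span_triple] at m2 m3
  obtain ⟨a, b, c, e1⟩ := m2
  obtain ⟨a', b', c', e2⟩ := m3
  have hindep := li3.mp (hall i1 i2 i3 h12 h13 h23)
  have haa : a = a' := by
    by_contra hne
    apply hw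
    have hne' : a - a' ≠ 0 := sub_ne_zero.mpr hne
    have : z w = (a - a')⁻¹ • ((b' - b) • z i1 - c • z i2 + c' • z i3) := by
      have h3 : (b' - b) • z i1 - c • z i2 + c' • z i3 = (a - a') • z w := by
        have h4 : a • z w + b • z i1 + c • z i2 = a' • z w + b' • z i1 + c' • z i3 := by
          rw [e1, e2]
        have h5 : a • z w = a' • z w + b' • z i1 + c' • z i3 - b • z i1 - c • z i2 := by
          rw [← h4]; abel
        rw [sub_smul, sub_smul, h5]; abel
      rw [h3, smul_smul, inv_mul_cancel₀ hne', one_smul]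
    rw [this]
    exact W.smul_mem _ (W.add_mem (W.sub_mem (W.smul_mem _ hW1) (W.smul_mem _ hW2))
      (W.smul_mem _ hW3))
  subst haa
  have hc0 : c = 0 := by
    have h4 : a • z w + b • z i1 + c • z i2 = a • z w + b' • z i1 + c' • z i3 := by
      rw [e1, e2]
    have h5 := hindep (b - b') c (-c') (by
      have h6 : b • z i1 + c • z i2 = b' • z i1 + c' • z i3 := by
        have := congrArg (fun t => t - a • z w) h4
        beta_reduce at this
        have l1 : a • z w + b • z i1 + c • z i2 - a • z w = b • z i1 + c • z i2 := by abel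
        have l2 : a • z w + b' • z i1 + c' • z i3 - a • z w = b' • z i1 + c' • z i3 := by abel
        rwa [l1, l2] at this
      rw [sub_smul, neg_smul]
      have : b • z i1 - b' • z i1 + c • z i2 + -(c' • z i3) =
        (b • z i1 + c • z i2) - (b' • z i1 + c' • z i3) := by abel
      rw [this, h6, sub_self])
    exact h5.2.1
  subst hc0
  have hfin := li3.mp (hall w i1 x (hwne _ hW1) (Ne.symm hxw) (Ne.symm hx1)) a b (-1) (by
    rw [← e1, zero_smul, add_zero, neg_one_smul, add_neg_cancel])
  exact one_ne_zero (neg_eq_zero.mp hfin.2.2)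

end Pool.Agent.Helper52
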