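import Pool.Agent.Helper52.Projection

/-!
# Quadric cones through a finite set of points
-/

set_option autoImplicit false

open MvPolynomial

namespace Pool.Agent.Helper52

section bilin

variable {K : Type*} [Field K] {n : ℕ}

lemma lin_proj (i : Fin n) : lin (LinearMap.proj i : (Fin n → K) →ₗ[K] K) = X i := by
  classical
  simp [lin, Pi.single_apply]

lemma lin_add (φ ψ : (Fin n → K) →ₗ[K] K) : lin (φ + ψ) = lin φ + lin ψ := by
  simp [lin, add_mul, Finset.sum_add_distrib]

lemma lin_smul (c : K) (φ : (Fin n → K) →ₗ[K] K) : lin (c • φ) = C c * lin φ := by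
  simp [lin, Finset.mul_sum, mul_assoc]

lemma exists_eq_lin {f : MvPolynomial (Fin n) K} (hf : f.IsHomogeneous 1) :
    ∃ φ : (Fin n → K) →ₗ[K] K, lin φ = f := by
  have h : f ∈ Submodule.span K (Set.range (X : Fin n → MvPolynomial (Fin n) K)) := by
    rw [← homogeneousSubmodule_one_eq_span_X]; exact hf
  clear hf
  induction h using Submodule.span_induction with
  | mem x hx => obtain ⟨i, rfl⟩ := hx; exact ⟨_, lin_proj i⟩
  | zero => exact ⟨0, by simp [lin]⟩
  | add x y _ _ hx hy =>
    obtain ⟨φ, rfl⟩ := hx
    obtain ⟨ψ, rfl⟩ := hy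
    exact ⟨φ + ψ, lin_add φ ψ⟩
  | smul c x _ hx =>
    obtain ⟨φ, rfl⟩ := hx
    exact ⟨c • φ, by rw [lin_smul, smul_eq_C_mul]⟩

/-- a quadratic form comes from a symmetric bilinear form if `2` is invertible -/
lemma exists_bilin (h2 : (2 : K) ≠ 0) {f : MvPolynomial (Fin n) K} (hf : f.IsHomogeneous 2) :
    ∃ B : LinearMap.BilinForm K (Fin n → K), (∀ u v, B u v = B v u) ∧ ∀ v, B v v = eval v f := by
  have h : f ∈ homogeneousSubmodule (Fin n) K 1 * homogeneousSubmodule (Fin n) K 1 := by
    rw [← pow_two, homogeneousSubmodule_one_pow]; exact hf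
  clear hf
  induction h using Submodule.mul_induction_on' with
  | add x _ y _ hx hy =>
    obtain ⟨B, hB, hB'⟩ := hx
    obtain ⟨D, hD, hD'⟩ := hy
    refine ⟨B + D, fun u v => ?_, fun v => ?_⟩
    · rw [LinearMap.add_apply, LinearMap.add_apply, LinearMap.add_apply, LinearMap.add_apply,
        hB u v, hD u v]
    · rw [LinearMap.add_apply, LinearMap.add_apply, hB' v, hD' v, map_add]
  | mem_mul_mem l hl m hm =>
    obtain ⟨φ, rfl⟩ := exists_eq_lin hl
    obtain ⟨ψ, rfl⟩ := exists_eq_lin hm
    let B1 : LinearMap.BilinForm K (Fin n → K) := LinearMap.BilinForm.linMulLin φ ψ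
    let B2 : LinearMap.BilinForm K (Fin n → K) := LinearMap.BilinForm.linMulLin ψ φ
    refine ⟨(2 : K)⁻¹ • (B1 + B2), fun u v => ?_, fun v => ?_⟩
    · simp only [B1, B2, LinearMap.smul_apply, LinearMap.add_apply,
        LinearMap.BilinForm.linMulLin_apply, smul_eq_mul]
      ring
    · simp only [B1, B2, LinearMap.smul_apply, LinearMap.add_apply,
        LinearMap.BilinForm.linMulLin_apply, smul_eq_mul, map_mul, eval_lin]
      field_simp
      ring

end bilin

section semicontinuity

variable {K : Type*} [Field K] [Infinite K]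
variable {E F : Type*} [AddCommGroup E] [Module K E] [FiniteDimensional K E]
  [AddCommGroup F] [Module K F]

/-- A family of linear maps depending affinely on `p` and generically non-injective is
non-injective everywhere. -/
theorem semicont (T0 : E →ₗ[K] F) (T : (Fin 4 → K) →ₗ[K] (E →ₗ[K] F))
    (Φ : MvPolynomial (Fin 4) K) (hΦ : Φ ≠ 0)
    (h : ∀ p, eval p Φ ≠ 0 → ∃ x : E, x ≠ 0 ∧ (T0 + T p) x = 0) (p0 : Fin 4 → K) :
    ∃ x : E, x ≠ 0 ∧ (T0 + T p0) x = 0 := by
  by_contra hcon
  push Not at hcon
  have hinj : LinearMap.ker (T0 + T p0) = ⊥ := by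
    rw [LinearMap.ker_eq_bot']
    intro x hx
    by_contra hx0
    exact hcon x hx0 hx
  obtain ⟨N, hN⟩ := LinearMap.exists_leftInverse_of_injective _ hinj
  let b := Module.finBasis K E
  let A0 := LinearMap.toMatrix b b (N ∘ₗ T0)
  let A : Fin 4 → Matrix _ _ K := fun j => LinearMap.toMatrix b b (N ∘ₗ T (Pi.single j 1))
  let D : MvPolynomial (Fin 4) K := (A0.map C + ∑ j, (X j : MvPolynomial (Fin 4) K) •
    (A j).map C).det
  have hD : ∀ p, eval p D = LinearMap.det (N ∘ₗ (T0 + T p)) := by
    intro p
    rw [← LinearMap.det_toMatrix b]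
    show eval p (Matrix.det _) = _
    rw [RingHom.map_det]
    congr 1
    have hp : p = ∑ j, p j • (Pi.single j 1 : Fin 4 → K) := by
      funext i; simp [Finset.sum_apply, Pi.single_apply]
    have h1 : N ∘ₗ (T0 + T p) = N ∘ₗ T0 + ∑ j, p j • (N ∘ₗ T (Pi.single j 1)) := by
      conv_lhs => rw [hp]
      rw [LinearMap.comp_add, map_sum]
      congr 1
      ext x
      simp
    rw [h1, map_add, map_sum]
    ext i j
    simp only [RingHom.mapMatrix_apply, Matrix.map_apply, Matrix.add_apply, Matrix.sum_apply,
      Matrix.smul_apply, map_add, eval_C, map_sum, smul_eq_mul, map_mul, eval_X, map_smul]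
    rfl
  have hD0 : D ≠ 0 := by
    intro h0
    have := hD p0
    rw [h0, map_zero, hN, LinearMap.det_id] at this
    exact zero_ne_one this
  have hne : Φ * D ≠ 0 := mul_ne_zero hΦ hD0
  have : ∃ p, eval p (Φ * D) ≠ 0 := by
    by_contra hall
    push Not at hall
    exact hne (MvPolynomial.funext (fun p => by rw [hall p, map_zero]))
  obtain ⟨p, hp⟩ := this
  rw [map_mul] at hp
  obtain ⟨x, hx0, hx⟩ := h p (left_ne_zero_of_mul hp)
  have hdet := right_ne_zero_of_mul hp
  rw [hD p] at hdet
  have hu : IsUnit (LinearMap.det (N ∘ₗ (T0 + T p))) := hdet.isUnit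
  have hk := LinearMap.ker_eq_bot'.mp
    ((LinearMap.equivOfDetNeZero _ hdet).ker)
  apply hx0
  apply hk x
  show (N ∘ₗ (T0 + T p)) x = 0
  rw [LinearMap.comp_apply, hx, map_zero]

end semicontinuity

section cone

variable {K : Type*} [Field K] {ι : Type*}

/-- There is a nonzero symmetric bilinear form with `p` in its radical, whose quadratic form
vanishes at all `z i`: a quadric cone with vertex `p` through the points. -/
def HasCone (z : ι → Fin 4 → K) (p : Fin 4 → K) : Prop :=
  ∃ B : LinearMap.BilinForm K (Fin 4 → K), B ≠ 0 ∧ (∀ u v, B u v = B v u) ∧ (∀ v, B p v = 0) ∧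
    ∀ i, B (z i) (z i) = 0

/-- If there is such a cone for a general vertex then there is one for any vertex. -/
theorem hasCone_of_general [Infinite K] (z : ι → Fin 4 → K) (Φ : MvPolynomial (Fin 4) K)
    (hΦ : Φ ≠ 0) (h : ∀ p, eval p Φ ≠ 0 → HasCone z p) (p : Fin 4 → K) : HasCone z p := by
  let T0 : LinearMap.BilinForm K (Fin 4 → K) →ₗ[K] (((Fin 4 → K) → (Fin 4 → K) → K) × (ι → K) × ((Fin 4 → K) → K)) :=
    { toFun := fun B => (fun u v => B u v - B v u, fun i => B (z i) (z i), fun _ => 0)
      map_add' := by
        intro B D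
        refine Prod.ext ?_ (Prod.ext ?_ ?_)
        · funext u v; simp; ring
        · funext i; simp
        · funext v; simp
      map_smul' := by
        intro r B
        refine Prod.ext ?_ (Prod.ext ?_ ?_)
        · funext u v; simp; ring
        · funext i; simp
        · funext v; simp }
  let T : (Fin 4 → K) →ₗ[K]
      (LinearMap.BilinForm K (Fin 4 → K) →ₗ[K]
        (((Fin 4 → K) → (Fin 4 → K) → K) × (ι → K) × ((Fin 4 → K) → K))) :=
    LinearMap.mk₂ K (fun p B => (fun _ _ => 0, fun _ => 0, fun v => B p v))
      (by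
        intro p q B
        refine Prod.ext ?_ (Prod.ext ?_ ?_)
        · funext u v; simp
        · funext i; simp
        · funext v; simp)
      (by
        intro r q B
        refine Prod.ext ?_ (Prod.ext ?_ ?_)
        · funext u v; simp
        · funext i; simp
        · funext v; simp)
      (by
        intro p B D
        refine Prod.ext ?_ (Prod.ext ?_ ?_)
        · funext u v; simp
        · funext i; simp
        · funext v; simp)
      (by
        intro r q B
        refine Prod.ext ?_ (Prod.ext ?_ ?_)
        · funext u v; simp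
        · funext i; simp
        · funext v; simp)
  have hT : ∀ (p : Fin 4 → K) (B : LinearMap.BilinForm K (Fin 4 → K)), (T0 + T p) B = 0 ↔
      (∀ u v, B u v = B v u) ∧ (∀ v, B p v = 0) ∧ ∀ i, B (z i) (z i) = 0 := by
    intro p B
    have e : (T0 + T p) B = (fun u v => B u v - B v u, fun i => B (z i) (z i), fun v => B p v) := by
      refine Prod.ext ?_ (Prod.ext ?_ ?_)
      · funext u v; simp [T0, T]
      · funext i; simp [T0, T]
      · funext v; simp [T0, T]
    rw [e]
    constructor
    · intro h
      have h1 := congrArg Prod.fst h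
      have h2 := congrArg (fun x => x.2.1) h
      have h3 := congrArg (fun x => x.2.2) h
      refine ⟨fun u v => ?_, fun v => ?_, fun i => ?_⟩
      · exact sub_eq_zero.mp (congrFun (congrFun h1 u) v)
      · exact congrFun h3 v
      · exact congrFun h2 i
    · rintro ⟨h1, h2, h3⟩
      refine Prod.ext ?_ (Prod.ext ?_ ?_)
      · funext u v; exact sub_eq_zero.mpr (h1 u v)
      · funext i; exact h3 i
      · funext v; exact h2 v
  have key : ∀ q, eval q Φ ≠ 0 →
      ∃ x : LinearMap.BilinForm K (Fin 4 → K), x ≠ 0 ∧ (T0 + T q) x = 0 := by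
    intro q hq
    obtain ⟨B, hB0, hB⟩ := h q hq
    exact ⟨B, hB0, (hT q B).mpr hB⟩
  obtain ⟨B, hB0, hB⟩ := semicont (K := K) (E := LinearMap.BilinForm K (Fin 4 → K))
    (F := ((Fin 4 → K) → (Fin 4 → K) → K) × (ι → K) × ((Fin 4 → K) → K)) T0 T Φ hΦ key p
  exact ⟨B, hB0, (hT p B).mp hB⟩

/-- If all vertices carry a cone and `z i, z j, z k` are independent, then no three points outside
their span are independent. -/
theorem outside_dependent (h2 : (2 : K) ≠ 0) {z : ι → Fin 4 → K} (hc : ∀ p, HasCone z p)
    {i j k : ι} (hijk : LinearIndependent K ![z i, z j, z k]) {l m r : ι}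
    (hl : z l ∉ Submodule.span K {z i, z j, z k}) (hm : z m ∉ Submodule.span K {z i, z j, z k})
    (hr : z r ∉ Submodule.span K {z i, z j, z k}) : ¬ LinearIndependent K ![z l, z m, z r] := by
  intro hlmr
  set W := Submodule.span K {z i, z j, z k} with hW
  set U := Submodule.span K {z l, z m, z r} with hU
  have hWrange : W = Submodule.span K (Set.range ![z i, z j, z k]) := by
    rw [hW]; congr 1; ext x; simp [Set.mem_insert_iff, or_comm, or_left_comm]
  have hUrange : U = Submodule.span K (Set.range ![z l, z m, z r]) := by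
    rw [hU]; congr 1; ext x; simp [Set.mem_insert_iff, or_comm, or_left_comm]
  have hWd : Module.finrank K W = 3 := by
    rw [hWrange, finrank_span_eq_card hijk, Fintype.card_fin]
  have hUd : Module.finrank K U = 3 := by
    rw [hUrange, finrank_span_eq_card hlmr, Fintype.card_fin]
  -- every general point of `W` lies in `U`
  have key : ∀ α β γ : K, α ≠ 0 → β ≠ 0 → γ ≠ 0 → α • z i + β • z j + γ • z k ∈ U := by
    intro α β γ hα hβ hγ
    obtain ⟨B, hB0, hsymm, hp, hz⟩ := hc (α • z i + β • z j + γ • z k)
    have e1 := hp (z i)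
    have e2 := hp (z j)
    have e3 := hp (z k)
    simp only [map_add, map_smul, LinearMap.add_apply, LinearMap.smul_apply, smul_eq_mul,
      hz] at e1 e2 e3
    rw [hsymm (z j) (z i), hsymm (z k) (z i)] at e1
    rw [hsymm (z k) (z j)] at e2
    -- e1 : β B_ij + γ B_ik = 0, e2 : α B_ij + γ B_jk = 0, e3 : α B_ik + β B_jk = 0
    have hij : B (z i) (z j) = 0 := by
      have : (2 * α * β) * B (z i) (z j) = 0 := by
        linear_combination α * e1 + β * e2 - γ * e3
      exact (mul_eq_zero.mp this).resolve_left
        (mul_ne_zero (mul_ne_zero h2 hα) hβ)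
    have hik : B (z i) (z k) = 0 := by
      have : γ * B (z i) (z k) = 0 := by linear_combination e1 - β * hij
      exact (mul_eq_zero.mp this).resolve_left hγ
    have hjk : B (z j) (z k) = 0 := by
      have : γ * B (z j) (z k) = 0 := by linear_combination e2 - α * hij
      exact (mul_eq_zero.mp this).resolve_left hγ
    have hWW : ∀ u ∈ W, ∀ v ∈ W, B u v = 0 := by
      intro u hu v hv
      rw [hW, Submodule.mem_span_triple] at hu hv
      obtain ⟨a1, a2, a3, rfl⟩ := hu
      obtain ⟨b1, b2, b3, rfl⟩ := hv
      simp only [map_add, map_smul, LinearMap.add_apply, LinearMap.smul_apply, smul_eq_mul,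
        hz, hij, hik, hjk, hsymm (z j) (z i), hsymm (z k) (z i), hsymm (z k) (z j)]
      ring
    -- complement
    set w := z l with hw
    have htop : ∀ v, ∃ u ∈ W, ∃ c : K, u + c • w = v := by
      intro v
      have h3 : W ⊔ Submodule.span K {w} = ⊤ := by
        apply Submodule.eq_top_of_finrank_eq
        have h4 : W < W ⊔ Submodule.span K {w} := by
          apply lt_of_le_of_ne le_sup_left
          intro h5
          apply hl
          rw [h5]
          exact Submodule.mem_sup_right (Submodule.mem_span_singleton_self w)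
        have h5 := Submodule.finrank_lt_finrank_of_lt h4
        have h6 := Submodule.finrank_le (W ⊔ Submodule.span K {w})
        rw [Module.finrank_fin_fun] at h6 ⊢
        omega
      have h4 : v ∈ W ⊔ Submodule.span K {w} := by rw [h3]; trivial
      obtain ⟨u, hu, x, hx, rfl⟩ := Submodule.mem_sup.mp h4
      obtain ⟨c, rfl⟩ := Submodule.mem_span_singleton.mp hx
      exact ⟨u, hu, c, rfl⟩
    -- the linear form `m`
    obtain ⟨ℓ, hℓw, hℓW⟩ := Submodule.exists_le_ker_of_notMem hl
    let M : (Fin 4 → K) →ₗ[K] K := (ℓ w) • B.flip w + (ℓ w) • B.flip w - (B w w) • ℓ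
    have hMdef : ∀ v, M v = 2 * (ℓ w * B v w) - B w w * ℓ v := by
      intro v
      simp [M]
      ring
    have hM : ∀ u ∈ W, ∀ c : K, M (u + c • w) = ℓ w * (2 * B u w + c * B w w) := by
      intro u hu c
      have : ℓ u = 0 := hℓW hu
      rw [hMdef]
      simp only [map_add, map_smul, LinearMap.add_apply, LinearMap.smul_apply, smul_eq_mul, this]
      ring
    have hM0 : ∀ v, v ∉ W → B v v = 0 → M v = 0 := by
      intro v hv hvv
      obtain ⟨u, hu, c, rfl⟩ := htop v
      have hc0 : c ≠ 0 := by
        rintro rfl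
        apply hv
        simpa using hu
      rw [hM u hu c]
      simp only [map_add, map_smul, LinearMap.add_apply, LinearMap.smul_apply, smul_eq_mul,
        hWW u hu u hu, hsymm w u] at hvv
      have : c * (2 * B u w + c * B w w) = 0 := by linear_combination hvv
      rw [(mul_eq_zero.mp this).resolve_left hc0, mul_zero]
    have hMne : M ≠ 0 := by
      intro h0
      apply hB0
      have hww : B w w = 0 := by
        have h1 : M (0 + (1 : K) • w) = 0 := by rw [h0]; rfl
        rw [hM 0 W.zero_mem 1] at h1
        have := (mul_eq_zero.mp h1).resolve_left hℓw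
        simpa using this
      have huw : ∀ u ∈ W, B u w = 0 := by
        intro u hu
        have h1 : M (u + (0 : K) • w) = 0 := by rw [h0]; rfl
        rw [hM u hu 0] at h1
        have := (mul_eq_zero.mp h1).resolve_left hℓw
        simp only [zero_mul, add_zero] at this
        exact (mul_eq_zero.mp this).resolve_left h2
      apply LinearMap.ext
      intro x
      apply LinearMap.ext
      intro y
      obtain ⟨u, hu, c, rfl⟩ := htop x
      obtain ⟨v, hv, d, rfl⟩ := htop y
      simp only [map_add, map_smul, LinearMap.add_apply, LinearMap.smul_apply, smul_eq_mul,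
        hWW u hu v hv, huw u hu, hsymm w v, huw v hv, hww, LinearMap.zero_apply, mul_zero,
        add_zero]
    -- `U = ker M`
    have hUM : U ≤ LinearMap.ker M := by
      rw [hU, Submodule.span_le]
      intro x hx
      rcases hx with rfl | rfl | rfl
      · exact hM0 _ hl (hz l)
      · exact hM0 _ hm (hz m)
      · exact hM0 _ hr (hz r)
    have hkM : U = LinearMap.ker M := by
      apply Submodule.eq_of_le_of_finrank_le hUM
      have e1 := LinearMap.finrank_range_add_finrank_ker M
      rw [Module.finrank_fin_fun] at e1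
      have e2 : 1 ≤ Module.finrank K (LinearMap.range M) := by
        rw [Nat.one_le_iff_ne_zero]
        intro h0
        rw [Submodule.finrank_eq_zero, LinearMap.range_eq_bot] at h0
        exact hMne h0
      omega
    rw [hkM, LinearMap.mem_ker]
    have hpW : α • z i + β • z j + γ • z k ∈ W := by
      rw [hW, Submodule.mem_span_triple]
      exact ⟨α, β, γ, rfl⟩
    have := hM _ hpW 0
    rw [zero_smul, add_zero] at this
    rw [this, hp w]
    ring_nf
  have k1 := key 1 1 1 one_ne_zero one_ne_zero one_ne_zero
  have k2 := key 2 1 1 h2 one_ne_zero one_ne_zero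
  have k3 := key 1 2 1 one_ne_zero h2 one_ne_zero
  have k4 := key 1 1 2 one_ne_zero one_ne_zero h2
  have m1 : z i ∈ U := by
    have := U.sub_mem k2 k1
    have e : (2 : K) • z i + (1 : K) • z j + (1 : K) • z k -
      ((1 : K) • z i + (1 : K) • z j + (1 : K) • z k) = z i := by
      rw [two_smul]; simp only [one_smul]; abel
    rwa [e] at this
  have m2 : z j ∈ U := by
    have := U.sub_mem k3 k1
    have e : (1 : K) • z i + (2 : K) • z j + (1 : K) • z k -
      ((1 : K) • z i + (1 : K) • z j + (1 : K) • z k) = z j := by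
      rw [two_smul]; simp only [one_smul]; abel
    rwa [e] at this
  have m3 : z k ∈ U := by
    have := U.sub_mem k4 k1
    have e : (1 : K) • z i + (1 : K) • z j + (2 : K) • z k -
      ((1 : K) • z i + (1 : K) • z j + (1 : K) • z k) = z k := by
      rw [two_smul]; simp only [one_smul]; abel
    rwa [e] at this
  have hWU : W ≤ U := by
    rw [hW, Submodule.span_le]
    intro x hx
    rcases hx with rfl | rfl | rfl
    · exact m1
    · exact m2
    · exact m3
  have : W = U := Submodule.eq_of_le_of_finrank_le hWU (by omega)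
  apply hl
  rw [this, hU]
  exact Submodule.subset_span (Or.inl rfl)

end cone

end Pool.Agent.Helper52
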