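import Mathlib
import Pool.Agent.Helper66.EbbaVar

/-!
Counting the standard monomials of degree `≤ 4` in the 29 variables.
-/

set_option autoImplicit false

namespace Pool.Agent.Helper52.EbbaC

open Pool.Agent.Helper66.Ebba

/-- The numbering of the coordinates: 10 special ones, 19 free ones. -/
def toVar : Fin 10 ⊕ Fin 19 → Var
  | .inl k => (![Var.z 0, Var.z 1, Var.A 0 0, Var.A 0 1, Var.A 1 0, Var.A 1 1, Var.A 2 0, Var.A 2 1,
      Var.A 3 0, Var.A 3 1] : Fin 10 → Var) k
  | .inr k => (![Var.xi 0, Var.xi 1, Var.xi 2, Var.Y 0 0, Var.Y 0 1, Var.Y 0 2, Var.Y 1 0,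
      Var.Y 1 1, Var.Y 1 2, Var.o 0, Var.o 1, Var.o 2, Var.o 3, Var.o 4, Var.o 5, Var.o 6,
      Var.o 7, Var.o 8, Var.o 9] : Fin 19 → Var) k

lemma toVar_bij : Function.Bijective toVar := by
  constructor
  · decide +kernel
  · decide +kernel

/-- The standardness predicate on the ten special exponents. -/
def P (g : Fin 10 → ℕ) : Prop :=
  (g 0 = 0 ∨ (g 2 = 0 ∧ g 4 = 0 ∧ g 6 = 0 ∧ g 8 = 0)) ∧
  (g 1 = 0 ∨ ((g 3 = 0 ∨ (g 4 = 0 ∧ g 6 = 0 ∧ g 8 = 0)) ∧ (g 5 = 0 ∨ (g 6 = 0 ∧ g 8 = 0)) ∧
    (g 7 = 0 ∨ g 8 = 0)))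

instance : DecidablePred P := fun g => by unfold P; infer_instance

lemma std_iff (m : Var →₀ ℕ) : Std m ↔ P (fun k => m (toVar (.inl k))) := by
  unfold Std P
  have h0 : toVar (.inl 0) = Var.z 0 := rfl
  have h1 : toVar (.inl 1) = Var.z 1 := rfl
  have h2 : toVar (.inl 2) = Var.A 0 0 := rfl
  have h3 : toVar (.inl 3) = Var.A 0 1 := rfl
  have h4 : toVar (.inl 4) = Var.A 1 0 := rfl
  have h5 : toVar (.inl 5) = Var.A 1 1 := rfl
  have h6 : toVar (.inl 6) = Var.A 2 0 := rfl
  have h7 : toVar (.inl 7) = Var.A 2 1 := rfl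
  have h8 : toVar (.inl 8) = Var.A 3 0 := rfl
  beta_reduce
  rw [h0, h1, h2, h3, h4, h5, h6, h7, h8]
  constructor
  · rintro ⟨ha, hb⟩
    refine ⟨?_, ?_⟩
    · have a0 := ha 0
      have a1 := ha 1
      have a2 := ha 2
      have a3 := ha 3
      tauto
    · have b01 := hb 0 1 (by decide)
      have b02 := hb 0 2 (by decide)
      have b03 := hb 0 3 (by decide)
      have b12 := hb 1 2 (by decide)
      have b13 := hb 1 3 (by decide)
      have b23 := hb 2 3 (by decide)
      rcases Nat.eq_zero_or_pos (m (Var.z 1)) with hz | hz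
      · exact Or.inl hz
      · have hz' : m (Var.z 1) ≠ 0 := hz.ne'
        right
        simp only [hz', false_or] at b01 b02 b03 b12 b13 b23
        refine ⟨?_, ?_, b23⟩
        · rcases b01 with h | h
          · exact Or.inl h
          · rcases b02 with h' | h'
            · exact Or.inl h'
            · rcases b03 with h'' | h''
              · exact Or.inl h''
              · exact Or.inr ⟨h, h', h''⟩
        · rcases b12 with h | h
          · exact Or.inl h
          · rcases b13 with h' | h'
            · exact Or.inl h'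
            · exact Or.inr ⟨h, h'⟩
  · rintro ⟨ha, hb⟩
    refine ⟨?_, ?_⟩
    · intro r
      fin_cases r <;> (simp only [Fin.zero_eta, Fin.mk_one, Fin.reduceFinMk]; tauto)
    · intro r r' hr
      fin_cases r <;> fin_cases r' <;>
        first
        | (exact absurd hr (by decide))
        | (simp only [Fin.zero_eta, Fin.mk_one, Fin.reduceFinMk]; tauto)

lemma count0 : ((Finset.Nat.antidiagonalTuple 10 0).filter P).card = 1 := by decide +kernel
lemma count1 : ((Finset.Nat.antidiagonalTuple 10 1).filter P).card = 10 := by decide +kernel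
lemma count2 : ((Finset.Nat.antidiagonalTuple 10 2).filter P).card = 51 := by decide +kernel
lemma count3 : ((Finset.Nat.antidiagonalTuple 10 3).filter P).card = 180 := by decide +kernel
lemma count4 : ((Finset.Nat.antidiagonalTuple 10 4).filter P).card = 505 := by decide +kernel

lemma card_tuple (k n : ℕ) : (Finset.Nat.antidiagonalTuple k n).card = (k + n - 1).choose n := by
  have h := Finset.card_finsuppAntidiag_nat_eq_choose (s := (Finset.univ : Finset (Fin k))) n
  rw [Finset.card_univ, Fintype.card_fin] at h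
  rw [← h]
  symm
  refine Finset.card_nbij' (fun f => (f : Fin k → ℕ)) (fun g => Finsupp.equivFunOnFinite.symm g)
    ?_ ?_ ?_ ?_
  · intro f hf
    simp only [Finset.mem_coe, Finset.mem_finsuppAntidiag] at hf
    simp only [Finset.mem_coe, Finset.Nat.mem_antidiagonalTuple]
    exact hf.1
  · intro g hg
    simp only [Finset.mem_coe, Finset.Nat.mem_antidiagonalTuple] at hg
    simp only [Finset.mem_coe, Finset.mem_finsuppAntidiag]
    exact ⟨hg, Finset.subset_univ _⟩
  · intro f _
    ext v
    rfl
  · intro g _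
    rfl

/-- The equivalence between variables and numbers. -/
noncomputable def ε : Fin 10 ⊕ Fin 19 ≃ Var := Equiv.ofBijective toVar toVar_bij

lemma sum_split (m : Var → ℕ) :
    ∑ v, m v = ∑ k, m (toVar (.inl k)) + ∑ k, m (toVar (.inr k)) := by
  rw [← Fintype.sum_sum_type (fun x => m (toVar x))]
  exact (Fintype.sum_equiv ε (fun x => m (toVar x)) m (fun x => rfl)).symm

lemma card_split (i : ℕ) :
    (((Finset.univ : Finset Var).finsuppAntidiag i).filter Std).card =
      ∑ jk ∈ Finset.HasAntidiagonal.antidiagonal i,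
        ((Finset.Nat.antidiagonalTuple 10 jk.1).filter P).card * (19 + jk.2 - 1).choose jk.2 := by
  have h : ∀ jk ∈ Finset.HasAntidiagonal.antidiagonal i,
      ((Finset.Nat.antidiagonalTuple 10 jk.1).filter P).card * (19 + jk.2 - 1).choose jk.2 =
      (((Finset.Nat.antidiagonalTuple 10 jk.1).filter P) ×ˢ
        (Finset.Nat.antidiagonalTuple 19 jk.2)).card := by
    intro jk _
    rw [Finset.card_product, card_tuple]
  rw [Finset.sum_congr rfl h, ← Finset.card_sigma]
  refine Finset.card_nbij'
    (fun m => ⟨(∑ k, m (toVar (.inl k)), ∑ k, m (toVar (.inr k))),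
      (fun k => m (toVar (.inl k)), fun k => m (toVar (.inr k)))⟩)
    (fun x => Finsupp.equivFunOnFinite.symm (fun v => Sum.elim x.2.1 x.2.2 (ε.symm v)))
    ?_ ?_ ?_ ?_
  · intro m hm
    simp only [Finset.mem_coe, Finset.mem_filter, Finset.mem_finsuppAntidiag] at hm
    simp only [Finset.mem_coe, Finset.mem_sigma, Finset.HasAntidiagonal.mem_antidiagonal, Finset.mem_product,
      Finset.mem_filter, Finset.Nat.mem_antidiagonalTuple]
    refine ⟨?_, ⟨trivial, (std_iff m).mp hm.2⟩, trivial⟩
    rw [← sum_split]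
    exact hm.1.1
  · rintro ⟨⟨j, k⟩, ⟨g, g'⟩⟩ hx
    simp only [Finset.mem_coe, Finset.mem_sigma, Finset.HasAntidiagonal.mem_antidiagonal, Finset.mem_product,
      Finset.mem_filter, Finset.Nat.mem_antidiagonalTuple] at hx
    simp only [Finset.mem_coe, Finset.mem_filter, Finset.mem_finsuppAntidiag]
    have e1 : ∀ k, ε.symm (toVar (.inl k)) = .inl k := fun k => ε.symm_apply_apply (.inl k)
    have e2 : ∀ k, ε.symm (toVar (.inr k)) = .inr k := fun k => ε.symm_apply_apply (.inr k)
    refine ⟨⟨?_, Finset.subset_univ _⟩, ?_⟩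
    · show ∑ v, Sum.elim g g' (ε.symm v) = i
      rw [sum_split]
      simp only [e1, e2, Sum.elim_inl, Sum.elim_inr]
      rw [hx.2.1.1, hx.2.2, hx.1]
    · rw [std_iff]
      have : (fun k => (Finsupp.equivFunOnFinite.symm
          (fun v => Sum.elim g g' (ε.symm v)) : Var →₀ ℕ) (toVar (.inl k))) = g := by
        funext k
        show Sum.elim g g' (ε.symm (toVar (.inl k))) = g k
        rw [e1, Sum.elim_inl]
      rw [this]
      exact hx.2.1.2
  · intro m _
    ext v
    show Sum.elim _ _ (ε.symm v) = m v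
    have hv : v = ε (ε.symm v) := (ε.apply_symm_apply v).symm
    rcases h : ε.symm v with k | k
    · rw [h] at hv
      rw [hv]
      rfl
    · rw [h] at hv
      rw [hv]
      rfl
  · rintro ⟨⟨j, k⟩, ⟨g, g'⟩⟩ hx
    simp only [Finset.mem_coe, Finset.mem_sigma, Finset.HasAntidiagonal.mem_antidiagonal, Finset.mem_product,
      Finset.mem_filter, Finset.Nat.mem_antidiagonalTuple] at hx
    have e1 : ∀ k, ε.symm (toVar (.inl k)) = .inl k := fun k => ε.symm_apply_apply (.inl k)
    have e2 : ∀ k, ε.symm (toVar (.inr k)) = .inr k := fun k => ε.symm_apply_apply (.inr k)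
    have f1 : (fun k => (Finsupp.equivFunOnFinite.symm
        (fun v => Sum.elim g g' (ε.symm v)) : Var →₀ ℕ) (toVar (.inl k))) = g := by
      funext k
      show Sum.elim g g' (ε.symm (toVar (.inl k))) = g k
      rw [e1, Sum.elim_inl]
    have f2 : (fun k => (Finsupp.equivFunOnFinite.symm
        (fun v => Sum.elim g g' (ε.symm v)) : Var →₀ ℕ) (toVar (.inr k))) = g' := by
      funext k
      show Sum.elim g g' (ε.symm (toVar (.inr k))) = g' k
      rw [e2, Sum.elim_inr]
    have f1' : ∀ k, (Finsupp.equivFunOnFinite.symm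
        (fun v => Sum.elim g g' (ε.symm v)) : Var →₀ ℕ) (toVar (.inl k)) = g k := congrFun f1
    have f2' : ∀ k, (Finsupp.equivFunOnFinite.symm
        (fun v => Sum.elim g g' (ε.symm v)) : Var →₀ ℕ) (toVar (.inr k)) = g' k := congrFun f2
    dsimp only
    simp only [f1', f2']
    rw [hx.2.1.1, hx.2.2]

lemma choose0 : (19 + 0 - 1).choose 0 = 1 := by decide +kernel
lemma choose1 : (19 + 1 - 1).choose 1 = 19 := by decide +kernel
lemma choose2 : (19 + 2 - 1).choose 2 = 190 := by decide +kernel
lemma choose3 : (19 + 3 - 1).choose 3 = 1330 := by decide +kernel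
lemma choose4 : (19 + 4 - 1).choose 4 = 7315 := by decide +kernel

lemma sum_value (q : ℕ → ℕ) (h0 : q 0 = 1) (h1 : q 1 = 10) (h2 : q 2 = 51) (h3 : q 3 = 180)
    (h4 : q 4 = 505) (i : ℕ) (hi : i ≤ 4) :
    ∑ jk ∈ Finset.HasAntidiagonal.antidiagonal i, q jk.1 * (19 + jk.2 - 1).choose jk.2 =
      if i = 0 then 1 else if i = 1 then 29 else if i = 2 then 431 else if i = 3 then 4379
      else 34230 := by
  interval_cases i
  · rw [Finset.Nat.antidiagonal_zero, Finset.sum_singleton]
    simp only [h0, choose0]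
    norm_num
  · rw [show Finset.HasAntidiagonal.antidiagonal 1 = {(0, 1), (1, 0)} from rfl,
      Finset.sum_pair (by decide)]
    simp only [h0, h1, choose0, choose1]
    norm_num
  · rw [show Finset.HasAntidiagonal.antidiagonal 2 = {(0, 2), (1, 1), (2, 0)} from rfl,
      Finset.sum_insert (by decide), Finset.sum_insert (by decide), Finset.sum_singleton]
    simp only [h0, h1, h2, choose0, choose1, choose2]
    norm_num
  · rw [show Finset.HasAntidiagonal.antidiagonal 3 = {(0, 3), (1, 2), (2, 1), (3, 0)} from rfl,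
      Finset.sum_insert (by decide), Finset.sum_insert (by decide), Finset.sum_insert (by decide),
      Finset.sum_singleton]
    simp only [h0, h1, h2, h3, choose0, choose1, choose2, choose3]
    norm_num
  · rw [show Finset.HasAntidiagonal.antidiagonal 4 =
        {(0, 4), (1, 3), (2, 2), (3, 1), (4, 0)} from rfl,
      Finset.sum_insert (by decide), Finset.sum_insert (by decide), Finset.sum_insert (by decide),
      Finset.sum_insert (by decide), Finset.sum_singleton]
    simp only [h0, h1, h2, h3, h4, choose0, choose1, choose2, choose3, choose4]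
    norm_num

/-- Module C. -/
theorem card_std (i : ℕ) (hi : i ≤ 4) :
    (((Finset.univ : Finset Var).finsuppAntidiag i).filter Std).card =
      if i = 0 then 1 else if i = 1 then 29 else if i = 2 then 431 else if i = 3 then 4379
      else 34230 := by
  rw [card_split]
  exact sum_value (fun j => ((Finset.Nat.antidiagonalTuple 10 j).filter P).card)
    count0 count1 count2 count3 count4 i hi

end Pool.Agent.Helper52.EbbaC
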