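import Pool.Agent.Helper52.Collinear

/-!
# Complete intersections of type `(2, b)` with three collinear points
-/

set_option autoImplicit false

open MvPolynomial

namespace Pool.Agent.Helper52

variable {K : Type*} [Field K]

/-- A polynomial vanishing on a hyperplane is divisible by the linear form. -/
lemma lin_dvd_of_vanish [Infinite K] {n : ℕ} {f : MvPolynomial (Fin n) K}
    {φ : (Fin n → K) →ₗ[K] K} (hφ : φ ≠ 0) (h : ∀ v, φ v = 0 → eval v f = 0) : lin φ ∣ f := by
  obtain ⟨e0, he0⟩ : ∃ e, φ e ≠ 0 := by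
    by_contra hno
    push Not at hno
    exact hφ (LinearMap.ext hno)
  set e := (φ e0)⁻¹ • e0 with he
  have hee : φ e = 1 := by rw [he, map_smul, smul_eq_mul, inv_mul_cancel₀ he0]
  let θ : MvPolynomial (Fin n) K →ₐ[K] MvPolynomial (Fin n) K :=
    aeval (fun i => X i - C (e i) * lin φ)
  have hθ : ∀ v p, eval v (θ p) = eval (v - φ v • e) p := by
    intro v p
    have h1 : (aeval v : MvPolynomial (Fin n) K →ₐ[K] K).comp θ = aeval (v - φ v • e) := by
      apply MvPolynomial.algHom_ext
      intro j
      simp [θ, aeval_eq_eval, mul_comm]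
    have := AlgHom.congr_fun h1 p
    simpa [aeval_eq_eval] using this
  have h0 : θ f = 0 := by
    apply MvPolynomial.funext
    intro v
    rw [hθ, map_zero]
    apply h
    rw [map_sub, map_smul, hee, smul_eq_mul, mul_one, sub_self]
  rw [← Ideal.mem_span_singleton]
  have key : (Ideal.Quotient.mkₐ K (Ideal.span {lin φ})) =
      (Ideal.Quotient.mkₐ K (Ideal.span {lin φ})).comp θ := by
    apply MvPolynomial.algHom_ext
    intro i
    simp only [AlgHom.comp_apply, Ideal.Quotient.mkₐ_eq_mk, θ, aeval_X]
    rw [Ideal.Quotient.mk_eq_mk_iff_sub_mem]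
    rw [sub_sub_cancel]
    exact Ideal.mul_mem_left _ _ (Ideal.mem_span_singleton_self _)
  have h2 := AlgHom.congr_fun key f
  simp only [AlgHom.comp_apply] at h2
  rw [h0, map_zero] at h2
  exact Ideal.Quotient.eq_zero_iff_mem.mp h2

variable {ι : Type*} {y : ι → Fin 3 → K} {f g : MvPolynomial (Fin 3) K} {b : ℕ}

/-- Removing the points on a line contained in the conic. -/
lemma CIData.residual [Finite ι] {φ ψ : (Fin 3 → K) →ₗ[K] K}
    (h : CIData y (lin φ * lin ψ) g 2 b) (hφ : φ ≠ 0) :
    CIData (fun i : {i // φ (y i) ≠ 0} => y i) (lin ψ) g 1 b where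
  hf := lin_homog ψ
  hg := h.hg
  hI := by
    intro t q hq
    have hnd : ¬ lin φ ∣ g := by
      intro hd
      exact (lin_prime hφ).not_isUnit (h.relPrime (Dvd.intro _ rfl) hd)
    constructor
    · intro hv
      have h1 : (lin φ * q).IsHomogeneous (1 + t) := (lin_homog φ).mul hq
      have h2 : lin φ * q ∈ Ideal.span {lin φ * lin ψ, g} := by
        rw [← h.hI _ _ h1]
        intro i
        rw [map_mul, eval_lin]
        by_cases hi : φ (y i) = 0
        · rw [hi, zero_mul]
        · rw [hv ⟨i, hi⟩, mul_zero]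
      rw [Ideal.mem_span_pair] at h2 ⊢
      obtain ⟨α, β, e⟩ := h2
      have h3 : lin φ ∣ β * g := ⟨q - α * lin ψ, by linear_combination e⟩
      obtain ⟨γ, hγ⟩ := ((lin_prime hφ).dvd_or_dvd h3).resolve_right hnd
      refine ⟨α, γ, ?_⟩
      apply mul_left_cancel₀ (lin_ne_zero hφ)
      rw [← e, hγ]; ring
    · intro hm i
      rw [Ideal.mem_span_pair] at hm
      obtain ⟨α, β, rfl⟩ := hm
      have hfi : eval (y i) (lin φ * lin ψ) = 0 :=
        (h.hI 2 _ h.hf).mpr (Ideal.subset_span (Or.inl rfl)) i
      have hgi : eval (y i) g = 0 :=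
        (h.hI b _ h.hg).mpr (Ideal.subset_span (Or.inr rfl)) i
      rw [map_mul, eval_lin, eval_lin] at hfi
      rw [map_add, map_mul, map_mul, eval_lin, hgi,
        (mul_eq_zero.mp hfi).resolve_left i.2]
      ring

/-- If three points of a complete intersection of type `(2, b)` are collinear, it consists of `b`
points on one line and `b` points on another line. -/
theorem CIData.split [Fintype ι] [Infinite K] (h2 : (2 : K) ≠ 0) (h : CIData y f g 2 b)
    (hf0 : f ≠ 0) (hg0 : g ≠ 0) (hy : ∀ i, y i ≠ 0)
    (hy2 : ∀ i j, i ≠ j → y i ∉ Submodule.span K {y j}) {i j k : ι} (hij : i ≠ j) (hik : i ≠ k)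
    (hjk : j ≠ k) (hdep : ¬ LinearIndependent K ![y i, y j, y k]) :
    ∃ φ ψ : (Fin 3 → K) →ₗ[K] K, φ ≠ 0 ∧ ψ ≠ 0 ∧
      Nat.card {i // φ (y i) ≠ 0} = b ∧ Nat.card {i // ψ (y i) ≠ 0} = b ∧
      (∀ i, φ (y i) = 0 ∨ ψ (y i) = 0) := by
  classical
  obtain ⟨B, hB, hBf⟩ := exists_bilin h2 h.hf
  have hfv : ∀ i, eval (y i) f = 0 := (h.hI 2 _ h.hf).mpr (Ideal.subset_span (Or.inl rfl))
  -- `y k = c y i + d y j`
  obtain ⟨c, d, hk⟩ : ∃ c d : K, y k = c • y i + d • y j := by
    rw [li3] at hdep
    push Not at hdep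
    obtain ⟨p, q, r, e, hne⟩ := hdep
    have hr : r ≠ 0 := by
      rintro rfl
      rw [zero_smul, add_zero] at e
      by_cases hp : p = 0
      · subst hp
        rw [zero_smul, zero_add] at e
        by_cases hq : q = 0
        · exact hne rfl hq rfl
        · exact hy j ((smul_eq_zero.mp e).resolve_left hq)
      · apply hy2 i j hij
        rw [Submodule.mem_span_singleton]
        refine ⟨-(p⁻¹ * q), ?_⟩
        have : p • y i = -(q • y j) := eq_neg_of_add_eq_zero_left e
        rw [neg_smul, mul_smul, ← smul_neg, ← this, smul_smul, inv_mul_cancel₀ hp, one_smul]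
    refine ⟨-(r⁻¹ * p), -(r⁻¹ * q), ?_⟩
    have : r • y k = -(p • y i + q • y j) := eq_neg_of_add_eq_zero_right e
    have h3 : -(r⁻¹ * p) • y i + -(r⁻¹ * q) • y j = r⁻¹ • (-(p • y i + q • y j)) := by
      rw [smul_neg, smul_add, smul_smul, smul_smul, neg_smul, neg_smul, neg_add]
    rw [h3, ← this, smul_smul, inv_mul_cancel₀ hr, one_smul]
  have hc : c ≠ 0 := by
    rintro rfl
    rw [zero_smul, zero_add] at hk
    exact hy2 k j (Ne.symm hjk) (by
      rw [hk]; exact Submodule.smul_mem _ _ (Submodule.mem_span_singleton_self _))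
  have hd : d ≠ 0 := by
    rintro rfl
    rw [zero_smul, add_zero] at hk
    exact hy2 k i (Ne.symm hik) (by
      rw [hk]; exact Submodule.smul_mem _ _ (Submodule.mem_span_singleton_self _))
  have hBij : B (y i) (y j) = 0 := by
    have h1 := hfv k
    rw [← hBf, hk] at h1
    simp only [map_add, map_smul, LinearMap.add_apply, LinearMap.smul_apply, smul_eq_mul,
      hBf, hfv i, hfv j, hB (y j) (y i)] at h1
    have : (2 * c * d) * B (y i) (y j) = 0 := by linear_combination h1
    exact (mul_eq_zero.mp this).resolve_left (mul_ne_zero (mul_ne_zero h2 hc) hd)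
  -- the line
  have hlt : Submodule.span K {y i, y j} < ⊤ := by
    rw [lt_top_iff_ne_top]
    intro htop
    have h1 : Module.finrank K (Submodule.span K {y i, y j}) ≤ 2 := by
      have := finrank_span_finset_le_card (R := K) ({y i, y j} : Finset (Fin 3 → K))
      rw [Finset.coe_insert, Finset.coe_singleton] at this
      exact this.trans Finset.card_le_two
    rw [htop, finrank_top, Module.finrank_fin_fun] at h1
    omega
  obtain ⟨φ, hφ0, hφ⟩ := Submodule.exists_le_ker_of_lt_top _ hlt
  have hker : Submodule.span K {y i, y j} = LinearMap.ker φ := by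
    apply Submodule.eq_of_le_of_finrank_le hφ
    have e1 := LinearMap.finrank_range_add_finrank_ker φ
    rw [Module.finrank_fin_fun] at e1
    have e2 : 1 ≤ Module.finrank K (LinearMap.range φ) := by
      rw [Nat.one_le_iff_ne_zero]
      intro h0
      rw [Submodule.finrank_eq_zero, LinearMap.range_eq_bot] at h0
      exact hφ0 h0
    have e3 : Module.finrank K (Submodule.span K {y i, y j}) = 2 := by
      have hli : LinearIndependent K ![y i, y j] := by
        rw [LinearIndependent.pair_iff]
        intro s t hst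
        by_cases hs : s = 0
        · subst hs
          rw [zero_smul, zero_add] at hst
          exact ⟨rfl, (smul_eq_zero.mp hst).resolve_right (hy j)⟩
        · exfalso
          apply hy2 i j hij
          rw [Submodule.mem_span_singleton]
          refine ⟨-(s⁻¹ * t), ?_⟩
          have : s • y i = -(t • y j) := eq_neg_of_add_eq_zero_left hst
          rw [neg_smul, mul_smul, ← smul_neg, ← this, smul_smul, inv_mul_cancel₀ hs, one_smul]
      have h4 : Submodule.span K {y i, y j} = Submodule.span K (Set.range ![y i, y j]) := by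
        congr 1; ext x; simp [or_comm]
      rw [h4, finrank_span_eq_card hli, Fintype.card_fin]
    omega
  have hdvd : lin φ ∣ f := by
    apply lin_dvd_of_vanish hφ0
    intro v hv
    have hv' : v ∈ Submodule.span K {y i, y j} := by rw [hker]; exact hv
    rw [Submodule.mem_span_pair] at hv'
    obtain ⟨p, q, rfl⟩ := hv'
    rw [← hBf]
    simp only [map_add, map_smul, LinearMap.add_apply, LinearMap.smul_apply, smul_eq_mul,
      hBf, hfv i, hfv j, hB (y j) (y i), hBij]
    ring
  obtain ⟨r, hr⟩ := hdvd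
  have hr1 : r.IsHomogeneous 1 := by
    have := piece_of_mul (t := 2) (a := 1) (lin_homog φ) (lin_ne_zero hφ0) (α := r) (by
      rw [mul_comm, ← hr]; exact h.hf)
    unfold piece at this
    rwa [if_pos (by norm_num)] at this
  obtain ⟨ψ, rfl⟩ := exists_eq_lin hr1
  have hψ0 : ψ ≠ 0 := by
    rintro rfl
    apply hf0
    rw [hr]
    simp [lin]
  subst hr
  refine ⟨φ, ψ, hφ0, hψ0, ?_, ?_, ?_⟩
  · have h1 := (h.residual hφ0).card_eq (lin_ne_zero hψ0) hg0 (fun i => hy i)
      (fun i j hij => hy2 i j (fun h => hij (Subtype.ext h)))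
    rw [Nat.card_eq_fintype_card, h1, one_mul]
  · have h' : CIData y (lin ψ * lin φ) g 2 b := by rw [mul_comm]; exact h
    have h1 := (h'.residual hψ0).card_eq (lin_ne_zero hφ0) hg0 (fun i => hy i)
      (fun i j hij => hy2 i j (fun h => hij (Subtype.ext h)))
    rw [Nat.card_eq_fintype_card, h1, one_mul]
  · intro i
    have := hfv i
    rw [map_mul, eval_lin, eval_lin] at this
    exact mul_eq_zero.mp this

end Pool.Agent.Helper52
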