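import Pool.Agent.Helper52.Forms

/-!
# Zero-dimensional reduced complete intersections in the projective plane
-/

set_option autoImplicit false

open MvPolynomial

namespace Pool.Agent.Helper52

section lin

variable {K : Type*} [Field K] {n : ℕ}

/-- the linear form attached to a functional -/
noncomputable def lin (φ : (Fin n → K) →ₗ[K] K) : MvPolynomial (Fin n) K :=
  ∑ i, C (φ (Pi.single i 1)) * X i

@[simp] lemma eval_lin (φ : (Fin n → K) →ₗ[K] K) (v : Fin n → K) : eval v (lin φ) = φ v := by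
  have h : v = ∑ i, v i • (Pi.single i 1 : Fin n → K) := by
    funext j; simp [Finset.sum_apply, Pi.single_apply]
  conv_rhs => rw [h, map_sum]
  simp only [lin, map_sum, map_mul, eval_C, eval_X, map_smul, smul_eq_mul]
  exact Finset.sum_congr rfl fun i _ => mul_comm _ _

lemma lin_homog (φ : (Fin n → K) →ₗ[K] K) : (lin φ).IsHomogeneous 1 :=
  IsHomogeneous.sum _ _ _ fun i _ => isHomogeneous_C_mul_X _ _

lemma lin_ne_zero {φ : (Fin n → K) →ₗ[K] K} (h : φ ≠ 0) : lin φ ≠ 0 := by
  intro h0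
  apply h
  ext i
  have := eval_lin φ (Pi.single i 1)
  rw [h0, map_zero] at this
  simpa using this.symm

lemma lin_eq_of_eq_C_mul {φ ψ : (Fin n → K) →ₗ[K] K} {c : K} (h : lin φ = C c * lin ψ) :
    φ = c • ψ := by
  ext i
  have h1 := eval_lin φ (Pi.single i 1)
  rw [h, map_mul, eval_C, eval_lin] at h1
  simpa using h1.symm

/-- A nonunit factor of a linear form is a scalar multiple of it. -/
lemma dvd_lin {q : MvPolynomial (Fin n) K} (hq : ¬ IsUnit q) {φ : (Fin n → K) →ₗ[K] K}
    (hφ : φ ≠ 0) (h : q ∣ lin φ) : ∃ c : K, c ≠ 0 ∧ lin φ = C c * q := by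
  obtain ⟨u, hu⟩ := h
  have h0 := lin_ne_zero hφ
  have hq0 : q ≠ 0 := by rintro rfl; rw [zero_mul] at hu; exact h0 hu
  have hu0 : u ≠ 0 := by rintro rfl; rw [mul_zero] at hu; exact h0 hu
  have h1 : (lin φ).totalDegree = 1 := (lin_homog φ).totalDegree h0
  rw [hu, totalDegree_mul_of_isDomain hq0 hu0] at h1
  have h2 : q.totalDegree ≠ 0 := by
    intro h2
    apply hq
    rw [totalDegree_eq_zero_iff_eq_C] at h2
    rw [h2]
    have : coeff 0 q ≠ 0 := by
      intro h3; rw [h3, map_zero] at h2; exact hq0 h2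
    exact (this.isUnit).map C
  have h3 : u.totalDegree = 0 := by omega
  rw [totalDegree_eq_zero_iff_eq_C] at h3
  refine ⟨coeff 0 u, ?_, ?_⟩
  · intro h4; rw [h4, map_zero] at h3; exact hu0 h3
  · rw [hu, ← h3, mul_comm]

lemma lin_prime {φ : (Fin n → K) →ₗ[K] K} (hφ : φ ≠ 0) : Prime (lin φ) := by
  apply Irreducible.prime
  refine ⟨?_, ?_⟩
  · intro h
    have h1 : (lin φ).totalDegree = 1 := (lin_homog φ).totalDegree (lin_ne_zero hφ)
    obtain ⟨c, -, h2⟩ := isUnit_iff_eq_C_of_isReduced.mp h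
    rw [h2, totalDegree_C] at h1
    omega
  · intro p q hpq
    by_cases hp : IsUnit p
    · exact Or.inl hp
    · right
      obtain ⟨c, hc, h⟩ := dvd_lin hp hφ ⟨q, hpq⟩
      have hp0 : p ≠ 0 := by
        rintro rfl; rw [zero_mul] at hpq; exact lin_ne_zero hφ hpq
      have : q = C c := by
        rw [hpq, mul_comm p q] at h
        exact mul_right_cancel₀ hp0 h
      rw [this]
      exact hc.isUnit.map C

/-- if `lin φ ∣ lin ψ` then `ψ` is a multiple of `φ` -/
lemma lin_dvd_lin {φ ψ : (Fin n → K) →ₗ[K] K} (hφ : φ ≠ 0) (h : lin φ ∣ lin ψ) :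
    ∃ c : K, ψ = c • φ := by
  by_cases hψ : ψ = 0
  · exact ⟨0, by simp [hψ]⟩
  · obtain ⟨c, -, h1⟩ := dvd_lin (lin_prime hφ).not_isUnit hψ h
    exact ⟨c, lin_eq_of_eq_C_mul h1⟩

/-- In dimension three, there is a functional vanishing at a given vector and not proportional to
a given one. -/
lemma exists_functional (y : Fin 3 → K) (ψ : (Fin 3 → K) →ₗ[K] K) :
    ∃ φ : (Fin 3 → K) →ₗ[K] K, φ y = 0 ∧ ∀ c : K, φ ≠ c • ψ := by
  change Module.Dual K (Fin 3 → K) at ψ
  -- annihilator of `y`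
  have h1 := Subspace.finrank_add_finrank_dualAnnihilator_eq (K := K) (V := Fin 3 → K)
    (Submodule.span K {y})
  have h2 : Module.finrank K (Submodule.span K {y}) ≤ 1 := by
    have := finrank_span_le_card (R := K) ({y} : Set (Fin 3 → K))
    simpa using this
  rw [Module.finrank_fin_fun] at h1
  have h3 : Module.finrank K (Submodule.span K {ψ}) ≤ 1 := by
    have := finrank_span_le_card (R := K) ({ψ} : Set (Module.Dual K (Fin 3 → K)))
    simpa using this
  have h4 : ¬ (Submodule.span K {y}).dualAnnihilator ≤ Submodule.span K {ψ} := by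
    intro hle
    have := Submodule.finrank_mono hle
    omega
  obtain ⟨φ, hφ, hφ'⟩ := Set.not_subset.mp h4
  refine ⟨φ, ?_, ?_⟩
  · exact (Submodule.mem_dualAnnihilator φ).mp hφ y (Submodule.mem_span_singleton_self y)
  · rintro c rfl
    exact hφ' (Submodule.smul_mem _ _ (Submodule.mem_span_singleton_self ψ))

end lin

section ci

variable {K : Type*} [Field K] {ι : Type*}

/-- The forms `f, g` (of degrees `a, b`) generate the ideal of the points `y`. -/
structure CIData (y : ι → Fin 3 → K) (f g : MvPolynomial (Fin 3) K) (a b : ℕ) : Prop where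
  hf : f.IsHomogeneous a
  hg : g.IsHomogeneous b
  hI : ∀ (t : ℕ) (q : MvPolynomial (Fin 3) K), q.IsHomogeneous t →
    ((∀ i, eval (y i) q = 0) ↔ q ∈ Ideal.span {f, g})

variable {y : ι → Fin 3 → K} {f g : MvPolynomial (Fin 3) K} {a b : ℕ}

/-- generators of the ideal of finitely many points are relatively prime. -/
theorem CIData.relPrime [Finite ι] (h : CIData y f g a b) : IsRelPrime f g := by
  cases nonempty_fintype ι
  intro d hdf hdg
  by_contra hd
  obtain ⟨q, hq, hqf, hqg⟩ : ∃ q : MvPolynomial (Fin 3) K, Irreducible q ∧ q ∣ f ∧ q ∣ g := by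
    by_cases hd0 : d = 0
    · subst hd0
      refine ⟨lin (LinearMap.proj 0), (lin_prime ?_).irreducible, ?_, ?_⟩
      · intro h0
        have := LinearMap.congr_fun h0 (fun _ => 1)
        simp at this
      · rw [zero_dvd_iff.mp hdf]; exact dvd_zero _
      · rw [zero_dvd_iff.mp hdg]; exact dvd_zero _
    · obtain ⟨q, hq, hqd⟩ := WfDvdMonoid.exists_irreducible_factor hd hd0
      exact ⟨q, hq, hqd.trans hdf, hqd.trans hdg⟩
  have key : ∀ φ : ι → (Fin 3 → K) →ₗ[K] K, (∀ i, φ i (y i) = 0) → ∃ i, q ∣ lin (φ i) := by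
    intro φ hφ
    have h1 : (∏ i, lin (φ i)).IsHomogeneous (∑ _i : ι, 1) :=
      IsHomogeneous.prod _ _ _ fun i _ => lin_homog (φ i)
    have h2 : (∏ i, lin (φ i)) ∈ Ideal.span {f, g} := by
      rw [← h.hI _ _ h1]
      intro i
      rw [map_prod]
      exact Finset.prod_eq_zero (Finset.mem_univ i) (by rw [eval_lin, hφ i])
    rw [Ideal.mem_span_pair] at h2
    obtain ⟨α, β, h2⟩ := h2
    have h3 : q ∣ ∏ i, lin (φ i) := by
      rw [← h2]
      exact dvd_add (hqf.mul_left _) (hqg.mul_left _)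
    obtain ⟨i, -, hi⟩ := hq.prime.exists_mem_finset_dvd h3
    exact ⟨i, hi⟩
  choose φ hφ hφ0 using fun i => exists_functional (y i) 0
  obtain ⟨i0, hi0⟩ := key φ hφ
  have hne : φ i0 ≠ 0 := by simpa using hφ0 i0 0
  obtain ⟨c0, hc0, h0⟩ := dvd_lin hq.not_isUnit hne hi0
  choose ψ hψ hψ0 using fun i => exists_functional (y i) (φ i0)
  obtain ⟨i1, hi1⟩ := key ψ hψ
  have hne1 : ψ i1 ≠ 0 := by simpa using hψ0 i1 0
  obtain ⟨c1, hc1, h1⟩ := dvd_lin hq.not_isUnit hne1 hi1
  apply hψ0 i1 (c1 * c0⁻¹)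
  apply lin_eq_of_eq_C_mul
  rw [h1, h0, ← mul_assoc, ← map_mul, mul_assoc, inv_mul_cancel₀ hc0, mul_one]

lemma van_eq (h : CIData y f g a b) (t : ℕ) {q : MvPolynomial (Fin 3) K} :
    q ∈ van y t ↔ ∃ α ∈ piece K (Fin 3) t a, ∃ β ∈ piece K (Fin 3) t b, α * f + β * g = q := by
  rw [mem_van]
  constructor
  · rintro ⟨h1, h2⟩
    exact mem_span_pair_homog h.hf h.hg h1 ((h.hI t q h1).mp h2)
  · rintro ⟨α, hα, β, hβ, rfl⟩
    have h1 : (α * f + β * g).IsHomogeneous t := (piece_mul h.hf hα).add (piece_mul h.hg hβ)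
    refine ⟨h1, (h.hI t _ h1).mpr ?_⟩
    rw [Ideal.mem_span_pair]
    exact ⟨α, β, rfl⟩

lemma piece_mul' {t a b : ℕ} {f u : MvPolynomial (Fin 3) K} (hf : f.IsHomogeneous b)
    (hu : u ∈ piece K (Fin 3) t (a + b)) : u * f ∈ piece K (Fin 3) t a := by
  unfold piece at hu ⊢
  split_ifs at hu with h
  · rw [if_pos (by omega)]
    have := (show u.IsHomogeneous (t - (a + b)) from hu).mul hf
    have h2 : t - (a + b) + b = t - a := by omega
    rwa [h2] at this
  · rw [Submodule.mem_bot] at hu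
    subst hu
    rw [zero_mul]
    exact Submodule.zero_mem _

/-- The Hilbert function of a complete intersection. -/
theorem CIData.finrank_van [Finite ι] (h : CIData y f g a b) (hf0 : f ≠ 0) (hg0 : g ≠ 0) (t : ℕ) :
    Module.finrank K (van y t) + (t + 2 - (a + b)).choose 2 =
      (t + 2 - a).choose 2 + (t + 2 - b).choose 2 := by
  let Ψ : (piece K (Fin 3) t a × piece K (Fin 3) t b) →ₗ[K] MvPolynomial (Fin 3) K :=
    LinearMap.coprod ((LinearMap.mulRight K f) ∘ₗ (piece K (Fin 3) t a).subtype)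
      ((LinearMap.mulRight K g) ∘ₗ (piece K (Fin 3) t b).subtype)
  have hΨ : ∀ x, Ψ x = (x.1 : MvPolynomial (Fin 3) K) * f + x.2 * g := fun x => rfl
  have hrange : LinearMap.range Ψ = van y t := by
    ext q
    rw [van_eq h, LinearMap.mem_range]
    constructor
    · rintro ⟨⟨α, β⟩, rfl⟩
      exact ⟨α, α.2, β, β.2, rfl⟩
    · rintro ⟨α, hα, β, hβ, rfl⟩
      exact ⟨(⟨α, hα⟩, ⟨β, hβ⟩), rfl⟩
  let Θ1 : piece K (Fin 3) t (a + b) →ₗ[K] piece K (Fin 3) t a :=
    ((LinearMap.mulRight K g) ∘ₗ (piece K (Fin 3) t (a + b)).subtype).codRestrict _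
      (fun u => piece_mul' h.hg u.2)
  let Θ2 : piece K (Fin 3) t (a + b) →ₗ[K] piece K (Fin 3) t b :=
    ((LinearMap.mulRight K (-f)) ∘ₗ (piece K (Fin 3) t (a + b)).subtype).codRestrict _
      (fun u => piece_mul' (a := b) (b := a) h.hf.neg (by rw [add_comm b a]; exact u.2))
  let Θ := Θ1.prod Θ2
  have hΘ1 : ∀ u, ((Θ u).1 : MvPolynomial (Fin 3) K) = u * g := fun u => rfl
  have hΘ2 : ∀ u, ((Θ u).2 : MvPolynomial (Fin 3) K) = u * (-f) := fun u => rfl
  have hinj : Function.Injective Θ := by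
    intro u v huv
    have h1 : (u : MvPolynomial (Fin 3) K) * g = v * g := by
      rw [← hΘ1, ← hΘ1, huv]
    exact Subtype.ext (mul_right_cancel₀ hg0 h1)
  have hker : LinearMap.ker Ψ = LinearMap.range Θ := by
    ext ⟨α, β⟩
    rw [LinearMap.mem_ker, hΨ, LinearMap.mem_range]
    constructor
    · intro h0
      have h0' : (α : MvPolynomial (Fin 3) K) * f + β * g = 0 := h0
      have h1 : g ∣ (α : MvPolynomial (Fin 3) K) * f := by
        refine ⟨-β, ?_⟩
        linear_combination h0'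
      have h2 : g ∣ (α : MvPolynomial (Fin 3) K) :=
        (h.relPrime.symm).dvd_of_dvd_mul_right h1
      obtain ⟨u, hu⟩ := h2
      have h3 : (β : MvPolynomial (Fin 3) K) = u * (-f) := by
        apply mul_right_cancel₀ hg0
        rw [hu] at h0'
        linear_combination h0'
      have h4 : u ∈ piece K (Fin 3) t (a + b) := by
        apply piece_of_mul (f := f * g) (h.hf.mul h.hg) (mul_ne_zero hf0 hg0)
        have : u * (f * g) = α * f := by rw [hu]; ring
        rw [this]
        exact piece_mul h.hf α.2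
      refine ⟨⟨u, h4⟩, ?_⟩
      apply Prod.ext
      · apply Subtype.ext
        rw [hΘ1]
        show u * g = α
        rw [hu, mul_comm]
      · apply Subtype.ext
        rw [hΘ2]
        exact h3.symm
    · rintro ⟨u, hu⟩
      have h1 : (α : MvPolynomial (Fin 3) K) = u * g := by rw [← hΘ1, hu]
      have h2 : (β : MvPolynomial (Fin 3) K) = u * (-f) := by rw [← hΘ2, hu]
      show (α : MvPolynomial (Fin 3) K) * f + β * g = 0
      rw [h1, h2]; ring
  have e1 := LinearMap.finrank_range_add_finrank_ker Ψ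
  rw [hrange, hker, LinearMap.finrank_range_of_inj hinj, Module.finrank_prod, finrank_piece3,
    finrank_piece3, finrank_piece3] at e1
  exact e1

/-- Distinct points impose independent conditions on forms of large degree. -/
theorem im_eq_top {n : ℕ} [Fintype ι] (z : ι → Fin n → K) (hz : ∀ i, z i ≠ 0)
    (hz2 : ∀ i j, i ≠ j → z i ∉ Submodule.span K {z j}) (t : ℕ) (ht : Fintype.card ι ≤ t) :
    im z t = ⊤ := by
  classical
  have h1 : ∀ i j, ∃ φ : (Fin n → K) →ₗ[K] K, φ (z i) ≠ 0 ∧ (i ≠ j → φ (z j) = 0) := by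
    intro i j
    by_cases hij : i = j
    · subst hij
      have : z i ∉ (⊥ : Submodule K (Fin n → K)) := by simpa using hz i
      obtain ⟨φ, hφ, -⟩ := Submodule.exists_le_ker_of_notMem this
      exact ⟨φ, hφ, fun h => absurd rfl h⟩
    · obtain ⟨φ, hφ, hφ2⟩ := Submodule.exists_le_ker_of_notMem (hz2 i j hij)
      exact ⟨φ, hφ, fun _ => hφ2 (Submodule.mem_span_singleton_self _)⟩
  choose φ hφ hφ2 using h1
  have h2 : ∀ i, (Pi.single i 1 : ι → K) ∈ im z t := by
    intro i
    set F : MvPolynomial (Fin n) K :=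
      (∏ j, lin (φ i j)) * (lin (φ i i)) ^ (t - Fintype.card ι) with hF
    have hFh : F.IsHomogeneous t := by
      have ha : (∏ j, lin (φ i j)).IsHomogeneous (∑ _j : ι, 1) :=
        IsHomogeneous.prod _ _ _ fun j _ => lin_homog (φ i j)
      have hb := (lin_homog (φ i i)).pow (t - Fintype.card ι)
      have hc := ha.mul hb
      have hd : (∑ _j : ι, 1) + 1 * (t - Fintype.card ι) = t := by
        simp; omega
      rwa [hd] at hc
    have hFi : eval (z i) F ≠ 0 := by
      rw [hF, map_mul, map_prod, map_pow]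
      refine mul_ne_zero (Finset.prod_ne_zero_iff.mpr fun j _ => ?_) (pow_ne_zero _ ?_)
      · rw [eval_lin]; exact hφ i j
      · rw [eval_lin]; exact hφ i i
    have hFj : ∀ j, i ≠ j → eval (z j) F = 0 := by
      intro j hij
      rw [hF, map_mul, map_prod]
      rw [Finset.prod_eq_zero (Finset.mem_univ j), zero_mul]
      rw [eval_lin]; exact hφ2 i j hij
    rw [mem_im]
    refine ⟨C (eval (z i) F)⁻¹ * F, hFh.C_mul _, ?_⟩
    intro j
    rw [map_mul, eval_C]
    by_cases hij : i = j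
    · subst hij
      rw [Pi.single_eq_same, inv_mul_cancel₀ hFi]
    · rw [hFj j hij, mul_zero, Pi.single_eq_of_ne (Ne.symm hij)]
  rw [eq_top_iff]
  intro v _
  have h3 : v = ∑ i, v i • (Pi.single i 1 : ι → K) := by
    funext j; simp [Finset.sum_apply, Pi.single_apply]
  rw [h3]
  exact Submodule.sum_mem _ fun i _ => Submodule.smul_mem _ _ (h2 i)

lemma numeric (N a b k : ℕ) (h : N + (a + b + k + 2 - a).choose 2 + (a + b + k + 2 - b).choose 2 =
    (a + b + k + 2).choose 2 + (a + b + k + 2 - (a + b)).choose 2) : N = a * b := by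
  have h1 : a + b + k + 2 - a = b + k + 2 := by omega
  have h2 : a + b + k + 2 - b = a + k + 2 := by omega
  have h3 : a + b + k + 2 - (a + b) = k + 2 := by omega
  rw [h1, h2, h3] at h
  have h4 : (N : ℚ) + ((b + k + 2).choose 2 : ℚ) + ((a + k + 2).choose 2 : ℚ) =
      ((a + b + k + 2).choose 2 : ℚ) + ((k + 2).choose 2 : ℚ) := by exact_mod_cast h
  rw [Nat.cast_choose_two, Nat.cast_choose_two, Nat.cast_choose_two, Nat.cast_choose_two] at h4
  push_cast at h4
  have h5 : (N : ℚ) = a * b := by linear_combination h4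
  exact_mod_cast h5

/-- The number of points of a complete intersection of type `(a, b)` is `a * b`. -/
theorem CIData.card_eq [Fintype ι] (h : CIData y f g a b) (hf0 : f ≠ 0) (hg0 : g ≠ 0)
    (hy : ∀ i, y i ≠ 0) (hy2 : ∀ i j, i ≠ j → y i ∉ Submodule.span K {y j}) :
    Fintype.card ι = a * b := by
  have h1 := im_eq_top y hy hy2 (a + b + Fintype.card ι) (by omega)
  have h2 := finrank_im_add_van y (a + b + Fintype.card ι)
  have h3 := h.finrank_van hf0 hg0 (a + b + Fintype.card ι)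
  rw [h1, finrank_top, Module.finrank_fintype_fun_eq_card, finrank_homog3] at h2
  apply numeric _ a b (Fintype.card ι)
  omega

/-- The Cayley–Bacharach property. -/
theorem CIData.cayleyBacharach [Finite ι] (h : CIData y f g a b) (hf0 : f ≠ 0) (hg0 : g ≠ 0)
    {s : ℕ} (hs : s + 3 ≤ a + b) (i : ι) {F : MvPolynomial (Fin 3) K} (hF : F.IsHomogeneous s)
    (hFj : ∀ j, j ≠ i → eval (y j) F = 0) : eval (y i) F = 0 := by
  obtain ⟨φ, hφ, hφ0⟩ := exists_functional (y i) 0
  obtain ⟨ψ, hψ, hψ0⟩ := exists_functional (y i) φ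
  have hφne : φ ≠ 0 := by simpa using hφ0 0
  have h1 : ∀ χ : (Fin 3 → K) →ₗ[K] K, χ (y i) = 0 →
      ∃ α ∈ piece K (Fin 3) (s + 1) a, ∃ β ∈ piece K (Fin 3) (s + 1) b,
        α * f + β * g = lin χ * F := by
    intro χ hχ
    rw [← van_eq h, mem_van]
    refine ⟨?_, ?_⟩
    · have := (lin_homog χ).mul hF
      rwa [add_comm 1 s] at this
    · intro j
      rw [map_mul, eval_lin]
      by_cases hj : j = i
      · subst hj; rw [hχ, zero_mul]
      · rw [hFj j hj, mul_zero]
  obtain ⟨α1, hα1, β1, hβ1, e1⟩ := h1 φ hφ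
  obtain ⟨α2, hα2, β2, hβ2, e2⟩ := h1 ψ hψ
  have e3 : (lin ψ * α1 - lin φ * α2) * f = -(lin ψ * β1 - lin φ * β2) * g := by
    linear_combination lin ψ * e1 - lin φ * e2
  have hdvd : g ∣ (lin ψ * α1 - lin φ * α2) := by
    refine h.relPrime.symm.dvd_of_dvd_mul_right (z := f) ?_
    rw [e3]
    exact Dvd.intro_left _ rfl
  have hzero : lin ψ * α1 - lin φ * α2 = 0 := by
    obtain ⟨u, hu⟩ := hdvd
    have hh : ((lin ψ * α1 - lin φ * α2) * f).IsHomogeneous (s + 2) := by
      have p1 := (lin_homog ψ).mul (piece_mul h.hf hα1)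
      have p2 := (lin_homog φ).mul (piece_mul h.hf hα2)
      have p3 := p1.sub p2
      have p4 : lin ψ * (α1 * f) - lin φ * (α2 * f) = (lin ψ * α1 - lin φ * α2) * f := by ring
      rw [p4] at p3
      have p5 : 1 + (s + 1) = s + 2 := by omega
      rwa [p5] at p3
    have h2 := comp_mul_homog_lt u (g * f) (h.hg.mul h.hf) (s + 2) (by omega)
    have h3 : u * (g * f) = (lin ψ * α1 - lin φ * α2) * f := by rw [hu]; ring
    rw [h3, homogeneousComponent_eq_self hh] at h2
    exact (mul_eq_zero.mp h2).resolve_right hf0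
  have hzero2 : lin ψ * β1 - lin φ * β2 = 0 := by
    rw [hzero, zero_mul] at e3
    have := (mul_eq_zero.mp e3.symm).resolve_right hg0
    linear_combination (-1 : MvPolynomial (Fin 3) K) * this
  have hnd : ¬ lin φ ∣ lin ψ := by
    intro hd
    obtain ⟨c, hc⟩ := lin_dvd_lin hφne hd
    exact hψ0 c hc
  have hα : lin φ ∣ α1 := by
    have : lin φ ∣ lin ψ * α1 := ⟨α2, by linear_combination hzero⟩
    exact ((lin_prime hφne).dvd_or_dvd this).resolve_left hnd
  have hβ : lin φ ∣ β1 := by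
    have : lin φ ∣ lin ψ * β1 := ⟨β2, by linear_combination hzero2⟩
    exact ((lin_prime hφne).dvd_or_dvd this).resolve_left hnd
  obtain ⟨γ, hγ⟩ := hα
  obtain ⟨δ, hδ⟩ := hβ
  have hFin : F = γ * f + δ * g := by
    apply mul_left_cancel₀ (lin_ne_zero hφne)
    rw [← e1, hγ, hδ]; ring
  have : F ∈ Ideal.span {f, g} := by
    rw [Ideal.mem_span_pair]
    exact ⟨γ, δ, hFin.symm⟩
  exact (h.hI s F hF).mpr this i

end ci

end Pool.Agent.Helper52
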