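import Pool.Agent.Helper52.PlaneCI

/-!
# Projecting points of `P^3` to a plane
-/

set_option autoImplicit false

open MvPolynomial

namespace Pool.Agent.Helper52

section pull

variable {K : Type*} [Field K]

/-- pull-back of a form along a linear map -/
noncomputable def pull (π : (Fin 4 → K) →ₗ[K] (Fin 3 → K)) :
    MvPolynomial (Fin 3) K →ₐ[K] MvPolynomial (Fin 4) K :=
  aeval (fun j => lin ((LinearMap.proj j : (Fin 3 → K) →ₗ[K] K) ∘ₗ π))

@[simp] lemma eval_pull (π : (Fin 4 → K) →ₗ[K] (Fin 3 → K)) (q : MvPolynomial (Fin 3) K)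
    (v : Fin 4 → K) : eval v (pull π q) = eval (π v) q := by
  have h : (aeval v : MvPolynomial (Fin 4) K →ₐ[K] K).comp (pull π) = aeval (π v) := by
    apply MvPolynomial.algHom_ext
    intro j
    simp [pull, aeval_eq_eval]
  have := AlgHom.congr_fun h q
  simpa [aeval_eq_eval] using this

lemma pull_homog (π : (Fin 4 → K) →ₗ[K] (Fin 3 → K)) {q : MvPolynomial (Fin 3) K} {t : ℕ}
    (hq : q.IsHomogeneous t) : (pull π q).IsHomogeneous t := by
  have := hq.aeval (fun j => lin ((LinearMap.proj j : (Fin 3 → K) →ₗ[K] K) ∘ₗ π))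
    (fun j => lin_homog _)
  rwa [one_mul] at this

lemma pull_injective [Infinite K] {π : (Fin 4 → K) →ₗ[K] (Fin 3 → K)}
    (hπ : Function.Surjective π) : Function.Injective (pull π) := by
  rw [injective_iff_map_eq_zero]
  intro q hq
  apply MvPolynomial.funext
  intro w
  obtain ⟨v, rfl⟩ := hπ w
  rw [← eval_pull, hq, map_zero, map_zero]

variable {ι : Type*} {z : ι → Fin 4 → K} {π : (Fin 4 → K) →ₗ[K] (Fin 3 → K)}

lemma im_le (t : ℕ) : im (fun i => π (z i)) t ≤ im z t := by
  intro φ hφ
  rw [mem_im] at hφ ⊢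
  obtain ⟨q, hq, h⟩ := hφ
  exact ⟨pull π q, pull_homog π hq, fun i => by rw [eval_pull, h i]⟩

lemma im_succ {t : ℕ} (ht : 1 ≤ t) (h : im z t ≤ im (fun i => π (z i)) t) :
    im z (t + 1) ≤ im (fun i => π (z i)) (t + 1) := by
  intro φ hφ
  rw [mem_im] at hφ
  obtain ⟨F, hF, hφ⟩ := hφ
  have hFm : F ∈ homogeneousSubmodule (Fin 4) K t * homogeneousSubmodule (Fin 4) K 1 := by
    rw [← homogeneousSubmodule_one_pow (R := K) (σ := Fin 4) t, ← pow_succ, homogeneousSubmodule_one_pow]
    exact hF
  have e0 : φ = evL z F := by funext i; rw [evL_apply, hφ i]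
  rw [e0]
  clear hφ e0 hF
  induction hFm using Submodule.mul_induction_on' with
  | add x _ y _ hx hy => rw [map_add]; exact Submodule.add_mem _ hx hy
  | mem_mul_mem G hG l hl =>
    have h1 : evL z G ∈ im (fun i => π (z i)) t :=
      h (mem_im.mpr ⟨G, hG, fun i => by simp⟩)
    rw [mem_im] at h1
    obtain ⟨q, hq, hqG⟩ := h1
    have hqm : q ∈ homogeneousSubmodule (Fin 3) K (t - 1) * homogeneousSubmodule (Fin 3) K 1 := by
      rw [← homogeneousSubmodule_one_pow (R := K) (σ := Fin 3) (t - 1), ← pow_succ,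
        homogeneousSubmodule_one_pow,
        Nat.sub_add_cancel ht]
      exact hq
    have e1 : evL z (G * l) = fun i => eval (π (z i)) q * eval (z i) l := by
      funext i
      rw [evL_apply, map_mul, hqG i, evL_apply]
    rw [e1]
    clear hqG e1 hq
    induction hqm using Submodule.mul_induction_on' with
    | add x _ y _ hx hy =>
      have : (fun i => eval (π (z i)) (x + y) * eval (z i) l) =
          (fun i => eval (π (z i)) x * eval (z i) l) +
            (fun i => eval (π (z i)) y * eval (z i) l) := by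
        funext i; simp [add_mul]
      rw [this]
      exact Submodule.add_mem _ hx hy
    | mem_mul_mem q1 hq1 m hm =>
      have h2 : evL z (pull π q1 * l) ∈ im (fun i => π (z i)) t := by
        apply h
        rw [mem_im]
        refine ⟨pull π q1 * l, ?_, fun i => by simp⟩
        have := (pull_homog π hq1).mul hl
        rwa [Nat.sub_add_cancel ht] at this
      rw [mem_im] at h2 ⊢
      obtain ⟨q', hq', h3⟩ := h2
      refine ⟨q' * m, hq'.mul hm, ?_⟩
      intro i
      rw [map_mul, h3 i, evL_apply, map_mul, map_mul, eval_pull]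
      ring

lemma im_le_of_le {t s : ℕ} (ht : 1 ≤ t) (hts : t ≤ s) (h : im z t ≤ im (fun i => π (z i)) t) :
    im z s ≤ im (fun i => π (z i)) s := by
  induction s, hts using Nat.le_induction with
  | base => exact h
  | succ s hs ih => exact im_succ (ht.trans hs) ih

end pull

section main

variable {K : Type*} [Field K] {ι : Type*} {z : ι → Fin 4 → K}
  {π : (Fin 4 → K) →ₗ[K] (Fin 3 → K)} {f g : MvPolynomial (Fin 3) K} {a b : ℕ}

lemma numeric1 (a b x : ℕ) (ha : 2 ≤ a) (hb : 2 ≤ b)
    (h : x + (a + b - 4 + 2 - (a + b)).choose 2 =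
      (a + b - 4 + 2 - a).choose 2 + (a + b - 4 + 2 - b).choose 2) :
    (a + b - 4 + 2).choose 2 + 3 = a * b + x := by
  obtain ⟨a', rfl⟩ : ∃ a', a = a' + 2 := ⟨a - 2, by omega⟩
  obtain ⟨b', rfl⟩ : ∃ b', b = b' + 2 := ⟨b - 2, by omega⟩
  have h1 : a' + 2 + (b' + 2) - 4 + 2 - (a' + 2) = b' := by omega
  have h2 : a' + 2 + (b' + 2) - 4 + 2 - (b' + 2) = a' := by omega
  have h3 : a' + 2 + (b' + 2) - 4 + 2 - (a' + 2 + (b' + 2)) = 0 := by omega
  have h4 : a' + 2 + (b' + 2) - 4 + 2 = a' + b' + 2 := by omega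
  rw [h1, h2, h3] at h
  rw [h4]
  have h5 : (x : ℚ) + 0 = (b'.choose 2 : ℚ) + (a'.choose 2 : ℚ) := by
    have : x + 0 = b'.choose 2 + a'.choose 2 := by simpa using h
    exact_mod_cast this
  have h6 : ((a' + b' + 2).choose 2 : ℚ) + 3 = ((a' + 2 : ℕ) : ℚ) * ((b' + 2 : ℕ) : ℚ) + x := by
    rw [Nat.cast_choose_two] at h5 ⊢
    rw [Nat.cast_choose_two] at h5
    push_cast
    linear_combination -h5
  exact_mod_cast h6

lemma numeric2 (a b x : ℕ) (ha : 1 ≤ a) (hb : 1 ≤ b) (hab : 3 ≤ a + b)
    (h : x + (a + b - 3 + 2 - (a + b)).choose 2 =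
      (a + b - 3 + 2 - a).choose 2 + (a + b - 3 + 2 - b).choose 2) :
    (a + b - 3 + 2).choose 2 + 1 = a * b + x := by
  obtain ⟨a', rfl⟩ : ∃ a', a = a' + 1 := ⟨a - 1, by omega⟩
  obtain ⟨b', rfl⟩ : ∃ b', b = b' + 1 := ⟨b - 1, by omega⟩
  have h1 : a' + 1 + (b' + 1) - 3 + 2 - (a' + 1) = b' := by omega
  have h2 : a' + 1 + (b' + 1) - 3 + 2 - (b' + 1) = a' := by omega
  have h3 : a' + 1 + (b' + 1) - 3 + 2 - (a' + 1 + (b' + 1)) = 0 := by omega
  have h4 : a' + 1 + (b' + 1) - 3 + 2 = a' + b' + 1 := by omega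
  rw [h1, h2, h3] at h
  rw [h4]
  have h5 : (x : ℚ) + 0 = (b'.choose 2 : ℚ) + (a'.choose 2 : ℚ) := by
    have : x + 0 = b'.choose 2 + a'.choose 2 := by simpa using h
    exact_mod_cast this
  have h6 : ((a' + b' + 1).choose 2 : ℚ) + 1 = ((a' + 1 : ℕ) : ℚ) * ((b' + 1 : ℕ) : ℚ) + x := by
    rw [Nat.cast_choose_two] at h5 ⊢
    rw [Nat.cast_choose_two] at h5
    push_cast
    linear_combination -h5
  exact_mod_cast h6

/-- **Key theorem.** If the projection `π(z)` of a nondegenerate set of points is a complete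
intersection of type `(a, b)`, then for `1 ≤ t ≤ a + b - 3` the points `z` impose more conditions
on forms of degree `t` than the points `π(z)`. -/
theorem im_lt [Fintype ι] (h : CIData (fun i => π (z i)) f g a b) (ha : 2 ≤ a) (hb : 2 ≤ b)
    (hy : ∀ i, π (z i) ≠ 0)
    (hy2 : ∀ i j, i ≠ j → π (z i) ∉ Submodule.span K {π (z j)})
    (hnd : ∀ φ : (Fin 4 → K) →ₗ[K] K, (∀ i, φ (z i) = 0) → φ = 0)
    (hf0 : f ≠ 0) (hg0 : g ≠ 0) {t : ℕ} (ht : 1 ≤ t) (hts : t + 3 ≤ a + b) :
    Module.finrank K (im (fun i => π (z i)) t) < Module.finrank K (im z t) := by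
  classical
  by_contra hcon
  have heq : im (fun i => π (z i)) t = im z t :=
    Submodule.eq_of_le_of_finrank_le (im_le t) (by omega)
  set s := a + b - 3 with hs
  have hle : im z s ≤ im (fun i => π (z i)) s := im_le_of_le ht (by omega) heq.ge
  have hcard := h.card_eq hf0 hg0 hy hy2
  -- dimension of the space of functions in degree `s`
  have d1 : Module.finrank K (im (fun i => π (z i)) s) + 1 = Fintype.card ι := by
    have e1 := finrank_im_add_van (fun i => π (z i)) s
    have e2 := numeric2 a b _ (by omega) (by omega) (by omega) (h.finrank_van hf0 hg0 s)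
    rw [finrank_homog3] at e1
    rw [hcard]
    rw [← hs] at e2
    omega
  have d2 : Fintype.card ι ≤ Module.finrank K (im (fun i => π (z i)) (a + b - 4)) + 3 := by
    have e1 := finrank_im_add_van (fun i => π (z i)) (a + b - 4)
    have e2 := numeric1 a b _ ha hb (h.finrank_van hf0 hg0 (a + b - 4))
    rw [finrank_homog3] at e1
    rw [hcard]
    omega
  -- a functional killing `im y s`
  have hlt : im (fun i => π (z i)) s < ⊤ := by
    rw [lt_top_iff_ne_top]
    intro htop
    rw [htop, finrank_top, Module.finrank_fintype_fun_eq_card] at d1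
    omega
  obtain ⟨c, hc0, hc⟩ := Submodule.exists_le_ker_of_lt_top _ hlt
  have hker : im (fun i => π (z i)) s = LinearMap.ker c := by
    apply Submodule.eq_of_le_of_finrank_le hc
    have e1 := LinearMap.finrank_range_add_finrank_ker c
    rw [Module.finrank_fintype_fun_eq_card] at e1
    have e2 : 1 ≤ Module.finrank K (LinearMap.range c) := by
      rw [Nat.one_le_iff_ne_zero]
      intro h0
      rw [Submodule.finrank_eq_zero, LinearMap.range_eq_bot] at h0
      exact hc0 h0
    omega
  -- all coefficients of `c` are nonzero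
  have hci : ∀ i, c (Pi.single i 1) ≠ 0 := by
    intro i h0
    have h1 : (Pi.single i 1 : ι → K) ∈ im (fun i => π (z i)) s := by
      rw [hker]; exact h0
    rw [mem_im] at h1
    obtain ⟨F, hF, hFe⟩ := h1
    have := h.cayleyBacharach hf0 hg0 (s := s) (by omega) i hF (by
      intro j hj
      rw [hFe j, Pi.single_eq_of_ne hj])
    rw [hFe i, Pi.single_eq_same] at this
    exact one_ne_zero this
  have hcsum : ∀ φ : ι → K, c φ = ∑ i, φ i * c (Pi.single i 1) := by
    intro φ
    have h3 : φ = ∑ i, φ i • (Pi.single i 1 : ι → K) := by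
      funext j; simp [Finset.sum_apply, Pi.single_apply]
    conv_lhs => rw [h3, map_sum]
    simp
  -- the map `w ↦ (q ↦ c (w(z) q))`
  let T : Module.Dual K (Fin 4 → K) →ₗ[K] Module.Dual K (ι → K) :=
    { toFun := fun l => c ∘ₗ LinearMap.pi (fun i => l (z i) • LinearMap.proj i)
      map_add' := by
        intro l m
        apply LinearMap.ext
        intro φ
        show c (fun i => (l + m) (z i) * φ i) = c (fun i => l (z i) * φ i) +
          c (fun i => m (z i) * φ i)
        rw [← map_add]
        congr 1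
        funext i
        rw [LinearMap.add_apply, add_mul]
        rfl
      map_smul' := by
        intro r l
        apply LinearMap.ext
        intro φ
        show c (fun i => (r • l) (z i) * φ i) = r • c (fun i => l (z i) * φ i)
        rw [← map_smul]
        congr 1
        funext i
        rw [LinearMap.smul_apply, smul_mul_assoc]
        rfl }
  have hT : ∀ l φ, T l φ = c (fun i => l (z i) * φ i) := fun l φ => rfl
  have hTinj : Function.Injective T := by
    rw [injective_iff_map_eq_zero]
    intro l hl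
    apply hnd
    intro i
    have h1 : T l (Pi.single i 1) = 0 := by rw [hl]; rfl
    rw [hT, hcsum, Finset.sum_eq_single i] at h1
    · rw [Pi.single_eq_same, mul_one] at h1
      exact (mul_eq_zero.mp h1).resolve_right (hci i)
    · intro j _ hj
      rw [Pi.single_eq_of_ne hj]; ring
    · intro hi; exact absurd (Finset.mem_univ i) hi
  have hTrange : LinearMap.range T ≤
      (im (fun i => π (z i)) (a + b - 4)).dualAnnihilator := by
    rintro _ ⟨l, rfl⟩
    rw [Submodule.mem_dualAnnihilator]
    intro φ hφ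
    rw [hT]
    have h1 : (fun i => l (z i) * φ i) ∈ LinearMap.ker c := by
      rw [← hker]
      apply hle
      rw [mem_im] at hφ ⊢
      obtain ⟨q, hq, hqe⟩ := hφ
      refine ⟨lin l * pull π q, ?_, ?_⟩
      · have := (lin_homog l).mul (pull_homog π hq)
        have e : 1 + (a + b - 4) = s := by omega
        rwa [e] at this
      · intro i
        rw [map_mul, eval_lin, eval_pull, hqe i]
    exact h1
  have e1 := Submodule.finrank_mono hTrange
  rw [LinearMap.finrank_range_of_inj hTinj, Subspace.dual_finrank_eq,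
    Module.finrank_fin_fun] at e1
  have e2 := Subspace.finrank_add_finrank_dualAnnihilator_eq
    (im (fun i => π (z i)) (a + b - 4))
  rw [Module.finrank_fintype_fun_eq_card] at e2
  omega

end main

end Pool.Agent.Helper52
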